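import Mathlib

/-!
The key lemma: the linear part of a vector field on the quadric threefold in characteristic two.
-/

open MvPolynomial

namespace Pool.Agent.W517

noncomputable section

section scaling

variable {k : Type} [Field k] {σ : Type} {T : Type} [CommRing T]
  (α β : MvPolynomial σ k →+* T) (t : T)
  (hX : ∀ i, α (X i) = t * β (X i)) (hC : ∀ c, α (C c) = β (C c))

include hX hC

lemma scale_monomial (d : σ →₀ ℕ) (c : k) :
    α (monomial d c) = t ^ d.degree * β (monomial d c) := by
  rw [monomial_eq, map_mul, map_mul, hC, Finsupp.prod, map_prod, map_prod]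
  simp only [map_pow, hX, mul_pow]
  rw [Finset.prod_mul_distrib, Finset.prod_pow_eq_pow_sum]
  change _ = t ^ (∑ i ∈ d.support, d i) * _
  ring

lemma scale_homogeneous {m : ℕ} {b : MvPolynomial σ k} (hb : b.IsHomogeneous m) :
    α b = t ^ m * β b := by
  rw [b.as_sum, map_sum, map_sum, Finset.mul_sum]
  refine Finset.sum_congr rfl fun d hd => ?_
  rw [scale_monomial α β t hX hC]
  congr 2
  have h := hb (mem_support_iff.1 hd)
  rw [Finsupp.degree_eq_weight_one]
  exact h

lemma scale_general (b : MvPolynomial σ k) {F : MvPolynomial σ k} (hF : α F = t) {N : ℕ}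
    (hN : b.totalDegree ≤ N) :
    t ^ N * β b = α (∑ m ∈ Finset.range (N + 1), homogeneousComponent m b * F ^ (N - m)) := by
  have h1 : b = ∑ m ∈ Finset.range (N + 1), homogeneousComponent m b := by
    conv_lhs => rw [← sum_homogeneousComponent b]
    refine Finset.sum_subset (Finset.range_mono (by omega)) ?_
    intro m _ hm
    apply homogeneousComponent_eq_zero
    simp only [Finset.mem_range, not_lt] at hm
    omega
  conv_lhs => rw [h1]
  rw [map_sum, map_sum, Finset.mul_sum]
  refine Finset.sum_congr rfl fun m hm => ?_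
  rw [map_mul, map_pow, hF,
    scale_homogeneous α β t hX hC (homogeneousComponent_isHomogeneous m b)]
  have : N = (N - m) + m := by
    simp only [Finset.mem_range] at hm
    omega
  conv_lhs => rw [this, pow_add]
  ring

end scaling

section components

attribute [local instance] MvPolynomial.gradedAlgebra

variable {k : Type} [Field k] {σ : Type}

lemma hc_mul {d e : ℕ} {H : MvPolynomial σ k} (hH : H.IsHomogeneous d) (G : MvPolynomial σ k) :
    homogeneousComponent (d + e) (H * G) = H * homogeneousComponent e G := by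
  have h := DirectSum.coe_decompose_mul_add_of_left_mem (homogeneousSubmodule σ k) (i := d) (j := e)
    (b := G) hH
  have h1 : ∀ (p : MvPolynomial σ k) (i : ℕ),
      ((DirectSum.decompose (homogeneousSubmodule σ k) p i : MvPolynomial σ k)) =
        homogeneousComponent i p := fun p i => decomposition.decompose'_apply p i
  rw [h1, h1] at h
  exact h

end components

section key

variable {k : Type} [Field k]

/-- `y₀² - y₁y₂` -/
def FF (k : Type) [Field k] : MvPolynomial (Fin 3) k := X 0 * X 0 - X 1 * X 2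

lemma FF_hom : (FF k).IsHomogeneous 2 := by
  refine Submodule.sub_mem (homogeneousSubmodule (Fin 3) k 2) ?_ ?_
  · exact (isHomogeneous_X k 0).mul (isHomogeneous_X k 0)
  · exact (isHomogeneous_X k 1).mul (isHomogeneous_X k 2)

lemma FF_ne_zero : FF k ≠ 0 := by
  intro h
  have := congrArg (eval (fun i : Fin 3 => if i = 0 then (1 : k) else 0)) h
  simp [FF] at this

/-- The comparison of homogeneous components. -/
lemma comp_eq (a0 a1 a2 b : MvPolynomial (Fin 3) k) (N : ℕ) (hN : 1 ≤ N)
    (h : FF k ^ N * (a0 * FF k + X 0 * (X 1 * a2 + X 2 * a1)) =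
      FF k ^ 2 * ∑ m ∈ Finset.range (N + 1), homogeneousComponent m b * FF k ^ (N - m)) :
    X 0 * (X 1 * homogeneousComponent 1 a2 + X 2 * homogeneousComponent 1 a1) =
      FF k * (homogeneousComponent 1 b - homogeneousComponent 1 a0) := by
  have h1 := congrArg (homogeneousComponent (N * 2 + 3)) h
  have hF : (FF k ^ N).IsHomogeneous (N * 2) := by
    rw [mul_comm]
    exact FF_hom.pow N
  rw [hc_mul hF] at h1
  have h2 : homogeneousComponent 3 (a0 * FF k + X 0 * (X 1 * a2 + X 2 * a1)) =
      FF k * homogeneousComponent 1 a0 +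
        X 0 * (X 1 * homogeneousComponent 1 a2 + X 2 * homogeneousComponent 1 a1) := by
    have e1 := hc_mul (d := 2) (e := 1) FF_hom a0
    have e2 := hc_mul (d := 1) (e := 2) (isHomogeneous_X k (0 : Fin 3)) (X 1 * a2 + X 2 * a1)
    have e3 := hc_mul (d := 1) (e := 1) (isHomogeneous_X k (1 : Fin 3)) a2
    have e4 := hc_mul (d := 1) (e := 1) (isHomogeneous_X k (2 : Fin 3)) a1
    simp only [Nat.reduceAdd] at e1 e2 e3 e4
    rw [map_add, mul_comm a0, e1, e2, map_add, e3, e4]
  rw [h2, Finset.mul_sum, map_sum] at h1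
  have h3 : ∀ m ∈ Finset.range (N + 1),
      homogeneousComponent (N * 2 + 3) (FF k ^ 2 * (homogeneousComponent m b * FF k ^ (N - m))) =
        if m = 1 then FF k ^ N * (FF k * homogeneousComponent 1 b) else 0 := by
    intro m hm
    simp only [Finset.mem_range] at hm
    have h4 : (FF k ^ 2 * (homogeneousComponent m b * FF k ^ (N - m))).IsHomogeneous
        (2 * 2 + (m + 2 * (N - m))) :=
      (FF_hom.pow 2).mul ((homogeneousComponent_isHomogeneous m b).mul (FF_hom.pow (N - m)))
    rw [homogeneousComponent_of_mem h4]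
    by_cases hm1 : m = 1
    · subst hm1
      rw [if_pos (by omega), if_pos rfl]
      have : FF k ^ (N - 1) * FF k = FF k ^ N := by
        rw [← pow_succ, Nat.sub_add_cancel hN]
      rw [← this]
      ring
    · rw [if_neg (by omega), if_neg hm1]
  rw [Finset.sum_congr rfl h3, Finset.sum_ite_eq' (Finset.range (N + 1)) 1,
    if_pos (Finset.mem_range.2 (by omega))] at h1
  have h5 := mul_left_cancel₀ (pow_ne_zero N (FF_ne_zero (k := k))) h1
  linear_combination h5

lemma coeff_zero_of_eq {p q m : MvPolynomial (Fin 3) k}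
    (h : X 0 * (X 1 * q + X 2 * p) = FF k * m) : coeff (Finsupp.single 0 1) p = 0 := by
  have h' : X 0 * (X 1 * q + X 2 * p) = X 0 * (X 0 * m) - X 1 * (X 2 * m) := by
    rw [h, FF]
    ring
  have h1 := congrArg (coeff (Finsupp.single 0 2 + Finsupp.single 2 1)) h'
  have h2 := congrArg (coeff (Finsupp.single 1 1 + Finsupp.single 2 2)) h'
  have e1 : (Finsupp.single (0 : Fin 3) 2 + Finsupp.single 2 1 - Finsupp.single 0 1 : Fin 3 →₀ ℕ) =
      Finsupp.single 0 1 + Finsupp.single 2 1 := by
    ext i; fin_cases i <;> simp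
  have e2 : (Finsupp.single (0 : Fin 3) 1 + Finsupp.single 2 1 - Finsupp.single 2 1 : Fin 3 →₀ ℕ) =
      Finsupp.single 0 1 := by
    ext i; fin_cases i <;> simp
  have e3 : (Finsupp.single (0 : Fin 3) 1 + Finsupp.single 2 1 - Finsupp.single 0 1 : Fin 3 →₀ ℕ) =
      Finsupp.single 2 1 := by
    ext i; fin_cases i <;> simp
  have e4 : (Finsupp.single (1 : Fin 3) 1 + Finsupp.single 2 2 - Finsupp.single 1 1 : Fin 3 →₀ ℕ) =
      Finsupp.single 2 2 := by
    ext i; fin_cases i <;> simp
  have e5 : (Finsupp.single (2 : Fin 3) 2 - Finsupp.single 2 1 : Fin 3 →₀ ℕ) =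
      Finsupp.single 2 1 := by
    ext i; fin_cases i <;> simp
  simp only [coeff_sub, coeff_add, coeff_X_mul', Finsupp.mem_support_iff, Finsupp.add_apply, e1, e2, e3, e4,
    e5] at h1 h2
  simp at h1 h2
  rw [h1, h2]

lemma coeff_zero_of_eq_aux {a1 a2 m : MvPolynomial (Fin 3) k}
    (h : X 0 * (X 1 * homogeneousComponent 1 a2 + X 2 * homogeneousComponent 1 a1) = FF k * m) :
    coeff (Finsupp.single 0 1) a1 = 0 := by
  have h1 := coeff_zero_of_eq h
  rw [coeff_homogeneousComponent] at h1
  simpa using h1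

/-- The key lemma: if `D` is a derivation of a ring `T` which preserves the image of two polynomial
rings related by the coordinate change `zᵢ = yᵢ / f`, `f = y₀² - y₁y₂`, then in characteristic two
the linear part of `D y₁` does not contain `y₀`. -/
lemma key_lemma [CharP k 2] {T : Type} [CommRing T] (α β : MvPolynomial (Fin 3) k →+* T)
    (hα : Function.Injective α) (hX : ∀ i, α (X i) = α (FF k) * β (X i))
    (hC : ∀ c, α (C c) = β (C c)) (D : T → T) (hadd : ∀ s t, D (s + t) = D s + D t)
    (hmul : ∀ s t, D (s * t) = s * D t + t * D s)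
    (h1 : ∀ p, ∃ q, D (α p) = α q) (h2 : ∀ p, ∃ q, D (β p) = β q)
    {a1 : MvPolynomial (Fin 3) k} (ha1 : D (α (X 1)) = α a1) :
    coeff (Finsupp.single 0 1) a1 = 0 := by
  obtain ⟨a0, ha0⟩ := h1 (X 0)
  obtain ⟨a2, ha2⟩ := h1 (X 2)
  obtain ⟨b, hb⟩ := h2 (X 0)
  have htwo : (2 : T) = 0 := by
    have : (2 : MvPolynomial (Fin 3) k) = 0 := CharTwo.two_eq_zero
    have h := congrArg α this
    rwa [map_ofNat, map_zero] at h
  have hsub : ∀ s t, D (s - t) = D s - D t := by
    intro s t
    have h := hadd (s - t) t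
    rw [sub_add_cancel] at h
    exact eq_sub_of_add_eq h.symm
  have hF : D (α (FF k)) = - α (X 1 * a2 + X 2 * a1) := by
    simp only [FF, map_sub, map_mul, hsub, hmul, ha0, ha1, ha2, map_add]
    linear_combination (α (X 0) * α a0) * htwo
  have h3 : α (a0 * FF k + X 0 * (X 1 * a2 + X 2 * a1)) = α (FF k) ^ 2 * β b := by
    have h4 := hmul (α (FF k)) (β (X 0))
    rw [← hX 0, ha0, hb, hF] at h4
    have h5 := hX 0
    rw [map_add, map_mul, map_mul]
    linear_combination α (FF k) * h4 + α (X 1 * a2 + X 2 * a1) * h5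
  have h6 := scale_general α β (α (FF k)) hX hC b rfl (N := b.totalDegree + 1) (by omega)
  have h7 : α (FF k ^ (b.totalDegree + 1) * (a0 * FF k + X 0 * (X 1 * a2 + X 2 * a1))) =
      α (FF k ^ 2 * ∑ m ∈ Finset.range (b.totalDegree + 1 + 1),
        homogeneousComponent m b * FF k ^ (b.totalDegree + 1 - m)) := by
    rw [map_mul, h3, map_mul _ (FF k ^ 2), ← h6, map_pow, map_pow]
    ring
  exact coeff_zero_of_eq_aux (comp_eq a0 a1 a2 b (b.totalDegree + 1) (by omega) (hα h7))

end key

end

end Pool.Agent.W517
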