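import Mathlib

/-!
Graded `k`-algebras generated in degree one.
-/

open HomogeneousLocalization AlgebraicGeometry

namespace Pool.Agent.W517

noncomputable section

variable {A : Type} [CommRing A] {k : Type} [Field k] [Algebra k A]
variable (𝒜 : ℕ → Submodule k A) [GradedAlgebra 𝒜]
variable {ι : Type} (g : ι → A) (hg : ∀ i, g i ∈ 𝒜 1)
  (hgen : Algebra.adjoin k (Set.range g) = ⊤)

include hg hgen

lemma exists_const (a : A) (ha : a ∈ 𝒜 0) : ∃ c : k, algebraMap k A c = a := by
  have h1 : ∀ x : A, ∃ c : k, algebraMap k A c = GradedRing.projZeroRingHom 𝒜 x := by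
    intro x
    have hx : x ∈ Algebra.adjoin k (Set.range g) := by rw [hgen]; trivial
    induction hx using Algebra.adjoin_induction with
    | mem x hx =>
      obtain ⟨i, rfl⟩ := hx
      refine ⟨0, ?_⟩
      rw [GradedRing.projZeroRingHom_apply, DirectSum.decompose_of_mem_ne 𝒜 (hg i) (by norm_num),
        map_zero]
    | algebraMap r =>
      refine ⟨r, ?_⟩
      rw [GradedRing.projZeroRingHom_apply,
        DirectSum.decompose_of_mem_same 𝒜 (SetLike.algebraMap_mem_graded 𝒜 r)]
    | add x y _ _ hx hy =>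
      obtain ⟨c, hc⟩ := hx
      obtain ⟨d, hd⟩ := hy
      exact ⟨c + d, by rw [map_add, map_add, hc, hd]⟩
    | mul x y _ _ hx hy =>
      obtain ⟨c, hc⟩ := hx
      obtain ⟨d, hd⟩ := hy
      exact ⟨c * d, by rw [map_mul, map_mul, hc, hd]⟩
  obtain ⟨c, hc⟩ := h1 a
  refine ⟨c, ?_⟩
  rw [hc, GradedRing.projZeroRingHom_apply, DirectSum.decompose_of_mem_same 𝒜 ha]

lemma algebraMap_zero_surjective : Function.Surjective (algebraMap k (𝒜 0)) := by
  rintro ⟨a, ha⟩
  obtain ⟨c, hc⟩ := exists_const 𝒜 g hg hgen a ha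
  exact ⟨c, Subtype.ext hc⟩

lemma adjoin_zero : Algebra.adjoin (𝒜 0) (Set.range g) = ⊤ := by
  rw [eq_top_iff]
  rintro x -
  have hx : x ∈ Algebra.adjoin k (Set.range g) := by rw [hgen]; trivial
  induction hx using Algebra.adjoin_induction with
  | mem x hx => exact Algebra.subset_adjoin hx
  | algebraMap r => exact (Algebra.adjoin (𝒜 0) (Set.range g)).algebraMap_mem (algebraMap k (𝒜 0) r)
  | add x y _ _ hx hy => exact add_mem hx hy
  | mul x y _ _ hx hy => exact mul_mem hx hy

lemma iSup_basicOpen : ⨆ i, Proj.basicOpen 𝒜 (g i) = ⊤ :=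
  Proj.iSup_basicOpen_eq_top' 𝒜 g (fun i => ⟨1, hg i⟩) (adjoin_zero 𝒜 g hg hgen)

lemma finiteType_zero [Finite ι] : Algebra.FiniteType (𝒜 0) A := by
  constructor
  exact ⟨(Set.toFinite (Set.range g)).toFinset, by
    rw [Set.Finite.coe_toFinset]
    exact adjoin_zero 𝒜 g hg hgen⟩

omit hg hgen in
/-- The constants in the ring of `D₊(f)`. -/
def cst (f : A) : k →+* Away 𝒜 f := (fromZeroRingHom 𝒜 _).comp (algebraMap k (𝒜 0))

omit hg hgen in
lemma val_cst (f : A) (c : k) : (cst 𝒜 f c).val = algebraMap A _ (algebraMap k A c) := by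
  rw [← Localization.mk_one_eq_algebraMap]
  rfl

/-- `a / f` for `a` of degree one. -/
abbrev fr {f : A} (hf : f ∈ 𝒜 1) (a : A) (ha : a ∈ 𝒜 1) : Away 𝒜 f := Away.mk 𝒜 hf 1 a (by simpa using ha)

lemma away_top [Finite ι] {f : A} (hf : f ∈ 𝒜 1) (T : Subring (Away 𝒜 f))
    (hT : ∀ c, cst 𝒜 f c ∈ T) (hT' : ∀ i, fr 𝒜 hf (g i) (hg i) ∈ T) (z : Away 𝒜 f) : z ∈ T := by
  have := Fintype.ofFinite ι
  have h := Away.adjoin_mk_prod_pow_eq_top hf ι g (adjoin_zero 𝒜 g hg hgen) (fun _ => 1) hg
  have hz : z ∈ (⊤ : Subalgebra (𝒜 0) (Away 𝒜 f)) := trivial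
  rw [← h] at hz
  induction hz using Algebra.adjoin_induction with
  | mem x hx =>
    obtain ⟨a, ai, hai, -, rfl⟩ := hx
    have : Away.mk 𝒜 hf a (∏ i, g i ^ ai i)
        (hai ▸ SetLike.prod_pow_mem_graded _ _ _ _ fun i _ ↦ hg i) =
        ∏ i, fr 𝒜 hf (g i) (hg i) ^ ai i := by
      apply (show Function.Injective (algebraMap (Away 𝒜 f) (Localization.Away f))
        from val_injective _)
      simp only [map_pow, map_prod]
      simp only [HomogeneousLocalization.algebraMap_apply, Away.val_mk,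
        Localization.mk_pow, Localization.mk_prod]
      congr 1
      apply Subtype.ext
      simp only [SubmonoidClass.coe_finsetProd, SubmonoidClass.coe_pow, pow_one,
        Finset.prod_pow_eq_pow_sum]
      congr 1
      simpa using hai.symm
    rw [this]
    exact prod_mem fun i _ => pow_mem (hT' i) _
  | algebraMap r =>
    obtain ⟨c, rfl⟩ := algebraMap_zero_surjective 𝒜 g hg hgen r
    exact hT c
  | add x y _ _ hx hy => exact add_mem hx hy
  | mul x y _ _ hx hy => exact mul_mem hx hy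

end

end Pool.Agent.W517
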