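import Mathlib

/-!
A `k`-derivation `δ` of a graded `k`-algebra which preserves degrees acts on all homogeneous
localizations.
-/

open HomogeneousLocalization

namespace Pool.Agent.W517

noncomputable section

section Loc

variable {A : Type*} [CommRing A] {k : Type*} [CommRing k] [Algebra k A]
  (δ : Derivation k A A) (M : Submonoid A)

/-- `a ↦ a + δ(a) ε` -/
def dualHom : A →+* TrivSqZeroExt (Localization M) (Localization M) where
  toFun a := TrivSqZeroExt.inl (algebraMap A _ a) + TrivSqZeroExt.inr (algebraMap A _ (δ a))
  map_one' := by simp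
  map_mul' a b := by
    ext
    · simp
    · simp only [Derivation.leibniz, smul_eq_mul, map_add, map_mul, TrivSqZeroExt.snd_add,
        TrivSqZeroExt.snd_inl, TrivSqZeroExt.snd_inr, zero_add, TrivSqZeroExt.snd_mul,
        TrivSqZeroExt.fst_add, TrivSqZeroExt.fst_inl, TrivSqZeroExt.fst_inr, add_zero,
        MulOpposite.smul_eq_mul_unop, MulOpposite.unop_op]
      ring
  map_zero' := by simp
  map_add' a b := by
    ext
    · simp
    · simp only [map_add, TrivSqZeroExt.snd_add,
        TrivSqZeroExt.snd_inl, TrivSqZeroExt.snd_inr, zero_add]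

lemma isUnit_dualHom (s : M) : IsUnit (dualHom δ M s) := by
  rw [TrivSqZeroExt.isUnit_iff_isUnit_fst]
  simpa [dualHom] using IsLocalization.map_units (Localization M) s

/-- `x ↦ x + δ(x) ε` on the localization -/
def dualLift : Localization M →+* TrivSqZeroExt (Localization M) (Localization M) :=
  IsLocalization.lift (M := M) (isUnit_dualHom δ M)

lemma dualLift_algebraMap (a : A) : dualLift δ M (algebraMap A _ a) = dualHom δ M a :=
  IsLocalization.lift_eq _ _

lemma fst_dualLift (x : Localization M) : (dualLift δ M x).fst = x := by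
  have h : ((TrivSqZeroExt.fstHom A (Localization M) (Localization M)).toRingHom.comp
      (dualLift δ M)) = RingHom.id _ := by
    apply IsLocalization.ringHom_ext M
    ext a
    simp [dualLift_algebraMap, dualHom]
  exact congrArg (fun f => f x) h

/-- The derivation induced on the localization. -/
def derLoc (x : Localization M) : Localization M := (dualLift δ M x).snd

lemma derLoc_algebraMap (a : A) : derLoc δ M (algebraMap A _ a) = algebraMap A _ (δ a) := by
  simp only [derLoc, dualLift_algebraMap, dualHom, RingHom.coe_mk, MonoidHom.coe_mk,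
    OneHom.coe_mk, TrivSqZeroExt.snd_add, TrivSqZeroExt.snd_inl, TrivSqZeroExt.snd_inr, zero_add]

lemma derLoc_add (x y : Localization M) : derLoc δ M (x + y) = derLoc δ M x + derLoc δ M y := by
  simp [derLoc]

lemma derLoc_mul (x y : Localization M) :
    derLoc δ M (x * y) = x * derLoc δ M y + y * derLoc δ M x := by
  simp [derLoc, fst_dualLift, mul_comm]

lemma derLoc_mk (a : A) (s : M) :
    derLoc δ M (Localization.mk a s) =
      Localization.mk (δ a * s - a * δ s) (s * s) := by
  have h1 : Localization.mk a s * algebraMap A (Localization M) s = algebraMap A _ a := by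
    rw [Localization.mk_eq_mk']
    exact IsLocalization.mk'_spec _ _ _
  have h2 := congrArg (derLoc δ M) h1
  rw [derLoc_mul, derLoc_algebraMap, derLoc_algebraMap] at h2
  have hu := IsLocalization.map_units (Localization M) s
  have hu2 := IsLocalization.map_units (Localization M) (s * s)
  have h3 : Localization.mk (δ a * s - a * δ s) (s * s) * algebraMap A (Localization M) (s * s : M)
      = algebraMap A _ (δ a * s - a * δ s) := by
    rw [Localization.mk_eq_mk']
    exact IsLocalization.mk'_spec _ _ _
  apply hu2.mul_right_cancel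
  rw [h3]
  simp only [Submonoid.coe_mul, map_mul, map_sub]
  linear_combination (algebraMap A (Localization M) s) * h2 - (algebraMap A (Localization M) (δ s)) * h1

end Loc

section HL

variable {A : Type*} [CommRing A] {k : Type*} [CommRing k] [Algebra k A]
  (𝒜 : ℕ → Submodule k A) [GradedAlgebra 𝒜]

/-- A derivation preserving the degrees. -/
def PreservesDegree (δ : Derivation k A A) : Prop := ∀ n, ∀ a ∈ 𝒜 n, δ a ∈ 𝒜 n

variable {𝒜} {δ : Derivation k A A} (hδ : PreservesDegree 𝒜 δ) (M : Submonoid A)

include hδ in
lemma num_mem (c : NumDenSameDeg 𝒜 M) :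
    δ c.num * c.den - c.num * δ c.den ∈ 𝒜 (c.deg + c.deg) := by
  refine sub_mem ?_ ?_
  · exact SetLike.mul_mem_graded (hδ _ _ c.num.2) c.den.2
  · exact SetLike.mul_mem_graded c.num.2 (hδ _ _ c.den.2)

/-- The induced operation on fractions. -/
def derNum (c : NumDenSameDeg 𝒜 M) : NumDenSameDeg 𝒜 M where
  deg := c.deg + c.deg
  num := ⟨δ c.num * c.den - c.num * δ c.den, num_mem hδ M c⟩
  den := ⟨c.den * c.den, SetLike.mul_mem_graded c.den.2 c.den.2⟩
  den_mem := M.mul_mem c.den_mem c.den_mem

lemma embedding_derNum (c : NumDenSameDeg 𝒜 M) :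
    (derNum hδ M c).embedding = derLoc δ M c.embedding := by
  simp only [NumDenSameDeg.embedding]
  rw [derLoc_mk]
  rfl

/-- The induced derivation on the homogeneous localization. -/
def derHL : HomogeneousLocalization 𝒜 M → HomogeneousLocalization 𝒜 M :=
  Quotient.map' (derNum hδ M) (by
    intro c d (h : c.embedding = d.embedding)
    change (derNum hδ M c).embedding = (derNum hδ M d).embedding
    rw [embedding_derNum, embedding_derNum, h])

lemma derHL_mk (c : NumDenSameDeg 𝒜 M) : derHL hδ M (mk c) = mk (derNum hδ M c) := rfl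

lemma val_derHL (x : HomogeneousLocalization 𝒜 M) : (derHL hδ M x).val = derLoc δ M x.val := by
  obtain ⟨c, rfl⟩ := mk_surjective x
  rw [derHL_mk]
  exact embedding_derNum hδ M c

lemma derHL_add (x y : HomogeneousLocalization 𝒜 M) :
    derHL hδ M (x + y) = derHL hδ M x + derHL hδ M y := by
  ext
  simp [val_derHL, derLoc_add]

lemma derHL_mul (x y : HomogeneousLocalization 𝒜 M) :
    derHL hδ M (x * y) = x * derHL hδ M y + y * derHL hδ M x := by
  ext
  simp [val_derHL, derLoc_mul]

end HL

end

end Pool.Agent.W517
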