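import Mathlib

/-!
The graded ring `A = k[x₀,x₁,x₂,x₃][ω]/(ω² - x₀x₁ - x₂x₃)`.
-/

open MvPolynomial QuadraticAlgebra

namespace Pool.Agent.W517

noncomputable section

variable (k : Type) [Field k]

/-- `k[x₀,x₁,x₂,x₃]` -/
abbrev S4 : Type := MvPolynomial (Fin 4) k

/-- `x₀x₁ + x₂x₃` -/
def G4 : S4 k := X 0 * X 1 + X 2 * X 3

/-- `k[x₀,x₁,x₂,x₃][ω]/(ω² - x₀x₁ - x₂x₃)` -/
abbrev QA : Type := QuadraticAlgebra (S4 k) (G4 k) 0

/-- Homogeneous polynomials of degree `n - 1`. -/
def shiftS : ℕ → Submodule k (S4 k)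
  | 0 => ⊥
  | n + 1 => homogeneousSubmodule (Fin 4) k n

/-- The grading of `A`: the generators have degree `1`. -/
def gr (n : ℕ) : Submodule k (QA k) where
  carrier := {z : QA k | z.re ∈ homogeneousSubmodule (Fin 4) k n ∧ z.im ∈ shiftS k n}
  add_mem' := fun ha hb => ⟨add_mem ha.1 hb.1, add_mem ha.2 hb.2⟩
  zero_mem' := ⟨zero_mem _, zero_mem _⟩
  smul_mem' := fun c z hz => ⟨Submodule.smul_mem _ c hz.1, Submodule.smul_mem _ c hz.2⟩

variable {k}

lemma mem_gr {n : ℕ} {z : QA k} :
    z ∈ gr k n ↔ z.re ∈ homogeneousSubmodule (Fin 4) k n ∧ z.im ∈ shiftS k n := Iff.rfl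

lemma G4_mem : G4 k ∈ homogeneousSubmodule (Fin 4) k 2 := by
  refine add_mem ?_ ?_
  · exact (isHomogeneous_X k 0).mul (isHomogeneous_X k 1)
  · exact (isHomogeneous_X k 2).mul (isHomogeneous_X k 3)

lemma mul_shift {m n : ℕ} {a b : S4 k} (ha : a ∈ homogeneousSubmodule (Fin 4) k m)
    (hb : b ∈ shiftS k n) : a * b ∈ shiftS k (m + n) := by
  cases n with
  | zero =>
    rw [shiftS, Submodule.mem_bot] at hb
    rw [hb, mul_zero]
    exact zero_mem _
  | succ n => exact IsHomogeneous.mul ha hb

lemma shift_mul_shift {m n : ℕ} {a b : S4 k} (ha : a ∈ shiftS k m)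
    (hb : b ∈ shiftS k n) : G4 k * a * b ∈ homogeneousSubmodule (Fin 4) k (m + n) := by
  cases m with
  | zero =>
    rw [shiftS, Submodule.mem_bot] at ha
    rw [ha, mul_zero, zero_mul]
    exact zero_mem _
  | succ m =>
    cases n with
    | zero =>
      rw [shiftS, Submodule.mem_bot] at hb
      rw [hb, mul_zero]
      exact zero_mem _
    | succ n =>
      have : (G4 k * a * b).IsHomogeneous (2 + m + n) :=
        (IsHomogeneous.mul G4_mem ha).mul hb
      rw [show m + 1 + (n + 1) = 2 + m + n by ring]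
      exact this

instance : SetLike.GradedMonoid (gr k) where
  one_mem := ⟨isHomogeneous_one _ _, by
    rw [QuadraticAlgebra.im_one]
    exact zero_mem _⟩
  mul_mem := by
    rintro m n a b ⟨ha1, ha2⟩ ⟨hb1, hb2⟩
    refine ⟨?_, ?_⟩
    · rw [QuadraticAlgebra.re_mul]
      exact add_mem (IsHomogeneous.mul ha1 hb1) (shift_mul_shift ha2 hb2)
    · rw [QuadraticAlgebra.im_mul]
      refine add_mem (add_mem (mul_shift ha1 hb2) ?_) ?_
      · rw [mul_comm, add_comm]
        exact mul_shift hb1 ha2
      · simp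

/-- `a ↦ a` -/
def incRe (n : ℕ) : homogeneousSubmodule (Fin 4) k n →+ gr k n where
  toFun a := ⟨⟨a, 0⟩, a.2, zero_mem _⟩
  map_zero' := rfl
  map_add' a b := by
    ext <;> simp

/-- `b ↦ b ω` -/
def incIm (n : ℕ) : homogeneousSubmodule (Fin 4) k n →+ gr k (n + 1) where
  toFun a := ⟨⟨0, a⟩, zero_mem _, a.2⟩
  map_zero' := rfl
  map_add' a b := by
    ext <;> simp

attribute [local instance] MvPolynomial.gradedAlgebra

/-- The decomposition -/
def decRe : DirectSum ℕ (fun n => homogeneousSubmodule (Fin 4) k n) →+ DirectSum ℕ (fun n => gr k n) :=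
  DirectSum.toAddMonoid fun n => (DirectSum.of (fun n => gr k n) n).comp (incRe n)

/-- The decomposition -/
def decIm : DirectSum ℕ (fun n => homogeneousSubmodule (Fin 4) k n) →+ DirectSum ℕ (fun n => gr k n) :=
  DirectSum.toAddMonoid fun n => (DirectSum.of (fun n => gr k n) (n + 1)).comp (incIm n)

/-- The decomposition -/
def dec : QA k →+ DirectSum ℕ (fun n => gr k n) where
  toFun z := decRe (DirectSum.decompose _ z.re) + decIm (DirectSum.decompose _ z.im)
  map_zero' := by simp
  map_add' a b := by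
    simp only [QuadraticAlgebra.re_add, QuadraticAlgebra.im_add, DirectSum.decompose_add, map_add]
    abel

lemma coe_decRe (a : DirectSum ℕ (fun n => homogeneousSubmodule (Fin 4) k n)) :
    DirectSum.coeAddMonoidHom (gr k) (decRe a) =
      ⟨DirectSum.coeAddMonoidHom (homogeneousSubmodule (Fin 4) k) a, 0⟩ := by
  induction a using DirectSum.induction_on with
  | zero => simp; rfl
  | of i x => simp [decRe, incRe]
  | add x y hx hy => rw [map_add, map_add, hx, hy, map_add]; ext <;> simp

lemma coe_decIm (a : DirectSum ℕ (fun n => homogeneousSubmodule (Fin 4) k n)) :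
    DirectSum.coeAddMonoidHom (gr k) (decIm a) =
      ⟨0, DirectSum.coeAddMonoidHom (homogeneousSubmodule (Fin 4) k) a⟩ := by
  induction a using DirectSum.induction_on with
  | zero => simp; rfl
  | of i x => simp [decIm, incIm]
  | add x y hx hy => rw [map_add, map_add, hx, hy, map_add]; ext <;> simp

lemma coe_decompose_S4 (a : S4 k) :
    DirectSum.coeAddMonoidHom (homogeneousSubmodule (Fin 4) k) (DirectSum.decompose _ a) = a :=
  DirectSum.Decomposition.left_inv a

lemma left_inv_dec :
    (DirectSum.coeAddMonoidHom (gr k)).comp dec = AddMonoidHom.id (QA k) := by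
  ext z
  · simp [dec, coe_decRe, coe_decIm, coe_decompose_S4]
  · simp [dec, coe_decRe, coe_decIm, coe_decompose_S4]

lemma dec_of_mem (n : ℕ) (x : gr k n) : dec (x : QA k) = DirectSum.of (fun n => gr k n) n x := by
  obtain ⟨⟨a, b⟩, ha, hb⟩ := x
  dsimp only at ha hb
  have h1 : DirectSum.decompose (homogeneousSubmodule (Fin 4) k) a =
      DirectSum.of (fun n => homogeneousSubmodule (Fin 4) k n) n ⟨a, ha⟩ :=
    DirectSum.decompose_of_mem _ ha
  cases n with
  | zero =>
    rw [shiftS, Submodule.mem_bot] at hb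
    subst hb
    simp only [dec, AddMonoidHom.coe_mk, ZeroHom.coe_mk]
    rw [h1, DirectSum.decompose_zero, map_zero, add_zero, decRe, DirectSum.toAddMonoid_of]
    rfl
  | succ n =>
    have h2 : DirectSum.decompose (homogeneousSubmodule (Fin 4) k) b =
        DirectSum.of (fun n => homogeneousSubmodule (Fin 4) k n) n ⟨b, hb⟩ :=
      DirectSum.decompose_of_mem (homogeneousSubmodule (Fin 4) k) hb
    simp only [dec, AddMonoidHom.coe_mk, ZeroHom.coe_mk]
    rw [h1, h2, decRe, decIm, DirectSum.toAddMonoid_of, DirectSum.toAddMonoid_of]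
    simp only [AddMonoidHom.comp_apply]
    rw [← map_add]
    congr 1
    ext <;> simp [incRe, incIm]

instance : DirectSum.Decomposition (gr k) :=
  DirectSum.Decomposition.ofAddHom (gr k) dec left_inv_dec (by
    refine DirectSum.addHom_ext fun i x => ?_
    simp only [AddMonoidHom.comp_apply, DirectSum.coeAddMonoidHom_of, AddMonoidHom.id_apply]
    exact dec_of_mem i x)

instance : GradedAlgebra (gr k) where

end

end Pool.Agent.W517
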