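import Mathlib
import Pool.Agent.W517.Quad
import Pool.Agent.W517.Loc

/-!
The graded ring `A = k[x₀,x₁,x₂,x₃][ω]/(ω² - x₀x₁ - x₂x₃)` in characteristic two.
-/

open MvPolynomial QuadraticAlgebra

namespace Pool.Agent.W517

noncomputable section

variable {k : Type} [Field k]

/-- The elements `x_v` of `A`. -/
def xv (v : Fin 4) : QA k := algebraMap (S4 k) (QA k) (X v)

lemma xv_eq (v : Fin 4) : (xv v : QA k) = ⟨X v, 0⟩ := rfl

lemma xv_mem (v : Fin 4) : (xv v : QA k) ∈ gr k 1 := ⟨isHomogeneous_X k v, zero_mem _⟩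

lemma omega_mem : (ω : QA k) ∈ gr k 1 := ⟨zero_mem _, isHomogeneous_one _ _⟩

lemma omega_sq : (ω : QA k) * ω = xv 0 * xv 1 + xv 2 * xv 3 := by
  rw [omega_mul_omega_eq_mk]
  simp only [xv, ← map_mul, ← map_add]
  rfl

/-- Ring homomorphisms from `A`. -/
def liftQ {R : Type} [CommRing R] (g : S4 k →+* R) (u : R) (h : u * u = g (G4 k)) : QA k →+* R where
  toFun z := g z.re + g z.im * u
  map_one' := by simp
  map_zero' := by simp
  map_add' z w := by
    simp only [re_add, im_add, map_add]
    ring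
  map_mul' z w := by
    simp only [re_mul, im_mul, map_add, map_mul, zero_mul, map_zero]
    linear_combination (- g z.im * g w.im) * h

lemma liftQ_xv {R : Type} [CommRing R] (g : S4 k →+* R) (u : R) (h : u * u = g (G4 k)) (v : Fin 4) :
    liftQ g u h (xv v) = g (X v) := by
  simp [liftQ, xv_eq]

lemma liftQ_omega {R : Type} [CommRing R] (g : S4 k →+* R) (u : R) (h : u * u = g (G4 k)) :
    liftQ g u h ω = u := by
  simp [liftQ]

lemma liftQ_algebraMap {R : Type} [CommRing R] (g : S4 k →+* R) (u : R) (h : u * u = g (G4 k))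
    (c : k) : liftQ g u h (algebraMap k (QA k) c) = g (C c) := by
  have : (algebraMap k (QA k) c) = ⟨C c, 0⟩ := rfl
  simp [liftQ, this]

/-- The elements `ω, x₀, …, x₃` generate `A`. -/
lemma adjoin_eq_top : Algebra.adjoin k (Set.range (Fin.cons ω xv : Fin 5 → QA k)) = ⊤ := by
  rw [eq_top_iff]
  rintro z -
  set B := Algebra.adjoin k (Set.range (Fin.cons ω xv : Fin 5 → QA k))
  have h1 : ∀ p : S4 k, algebraMap (S4 k) (QA k) p ∈ B := by
    intro p
    induction p using MvPolynomial.induction_on with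
    | C c => exact B.algebraMap_mem c
    | add p q hp hq => rw [map_add]; exact add_mem hp hq
    | mul_X p i hp =>
      rw [map_mul]
      exact mul_mem hp (Algebra.subset_adjoin ⟨i.succ, by simp [xv]⟩)
  have h2 : z = algebraMap _ _ z.re + algebraMap _ _ z.im * ω := by
    refine QuadraticAlgebra.ext ?_ ?_ <;> simp
  rw [h2]
  exact add_mem (h1 _) (mul_mem (h1 _) (Algebra.subset_adjoin ⟨0, rfl⟩))

section CharTwo

variable [CharP k 2]

instance : CharP (S4 k) 2 := inferInstance

lemma sq_eq (z : QA k) : z * z = algebraMap (S4 k) (QA k) (z.re * z.re + G4 k * (z.im * z.im)) := by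
  have h2 : (2 : S4 k) = 0 := CharTwo.two_eq_zero
  refine QuadraticAlgebra.ext ?_ ?_
  · simp
    ring
  · simp
    linear_combination (z.re * z.im) * h2

lemma eq_zero_of_norm {a b : S4 k} (h : a * a + G4 k * (b * b) = 0) : a = 0 ∧ b = 0 := by
  have h2 : (2 : S4 k) = 0 := CharTwo.two_eq_zero
  have h1 := congrArg (pderiv 0) h
  have h3 : pderiv (0 : Fin 4) (G4 k) = X 1 := by
    simp [G4, pderiv_X]
  have hb : b = 0 := by
    rw [map_add, Derivation.leibniz, Derivation.leibniz, Derivation.leibniz, h3, map_zero] at h1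
    simp only [smul_eq_mul] at h1
    have h4 : (X 1 : S4 k) * (b * b) = 0 := by
      linear_combination h1 - (a * pderiv 0 a + G4 k * b * pderiv 0 b) * h2
    have hX : (X 1 : S4 k) ≠ 0 := X_ne_zero 1
    simpa [hX] using h4
  subst hb
  refine ⟨?_, rfl⟩
  simpa using h

instance : IsDomain (QA k) := by
  have : NoZeroDivisors (QA k) := by
    constructor
    intro z w h
    have h1 : (z * z) * (w * w) = 0 := by
      rw [show (z * z) * (w * w) = (z * w) * (z * w) by ring, h, mul_zero]
    rw [sq_eq, sq_eq, ← map_mul] at h1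
    have h2 := (algebraMap_injective (R := S4 k) (a := G4 k) (b := 0)) (h1.trans (map_zero _).symm)
    rcases mul_eq_zero.1 h2 with h3 | h3
    · obtain ⟨ha, hb⟩ := eq_zero_of_norm h3
      left
      refine QuadraticAlgebra.ext ?_ ?_ <;> simp [ha, hb]
    · obtain ⟨ha, hb⟩ := eq_zero_of_norm h3
      right
      refine QuadraticAlgebra.ext ?_ ?_ <;> simp [ha, hb]
  exact NoZeroDivisors.to_isDomain _

/-- The derivation `∂/∂ω` of `A`. -/
def dOmega : Derivation k (QA k) (QA k) where
  toFun z := ⟨z.im, 0⟩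
  map_add' z w := by refine QuadraticAlgebra.ext ?_ ?_ <;> simp
  map_smul' c z := by refine QuadraticAlgebra.ext ?_ ?_ <;> simp
  map_one_eq_zero' := by refine QuadraticAlgebra.ext ?_ ?_ <;> simp
  leibniz' z w := by
    have h2 : (2 : S4 k) = 0 := CharTwo.two_eq_zero
    refine QuadraticAlgebra.ext ?_ ?_
    · simp
      ring
    · simp
      linear_combination (-(z.im * w.im)) * h2

lemma dOmega_apply (z : QA k) : dOmega z = ⟨z.im, 0⟩ := rfl

lemma dOmega_xv (v : Fin 4) : dOmega (xv v : QA k) = 0 := rfl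

lemma dOmega_omega : dOmega (ω : QA k) = 1 := by
  refine QuadraticAlgebra.ext ?_ ?_ <;> simp [dOmega_apply]

/-- The derivation `x_v ∂/∂ω`. -/
def dv (v : Fin 4) : Derivation k (QA k) (QA k) := (xv v : QA k) • dOmega

lemma dv_apply (v : Fin 4) (z : QA k) : dv v z = xv v * dOmega z := rfl

lemma dv_preserves (v : Fin 4) : PreservesDegree (gr k) (dv v) := by
  intro n z hz
  rw [dv_apply, dOmega_apply]
  obtain ⟨-, h2⟩ := hz
  refine ⟨?_, ?_⟩
  · rw [re_mul]
    simp only [xv_eq, mul_zero, add_zero]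
    cases n with
    | zero =>
      rw [shiftS, Submodule.mem_bot] at h2
      rw [h2, mul_zero]
      exact zero_mem _
    | succ n =>
      rw [add_comm]
      exact (isHomogeneous_X k v).mul h2
  · rw [im_mul]
    simp only [xv_eq, mul_zero, add_zero, zero_mul]
    exact zero_mem _

end CharTwo

end

end Pool.Agent.W517
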