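import Mathlib
import Pool.Agent.W517.Quad2
import Pool.Agent.W517.Gen1

/-!
The charts `D₊(x_v)` of the quadric are affine spaces.
-/

open MvPolynomial QuadraticAlgebra HomogeneousLocalization

namespace Pool.Agent.W517

noncomputable section

variable {k : Type} [Field k]

/-- `k[y₀,y₁,y₂]` -/
abbrev R3 (k : Type) [Field k] : Type := MvPolynomial (Fin 3) k

/-- The first index of the other pair. -/
def o1 (v : Fin 4) : Fin 4 := ![2, 2, 0, 0] v
/-- The second index of the other pair. -/
def o2 (v : Fin 4) : Fin 4 := ![3, 3, 1, 1] v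
/-- The partner. -/
def par (v : Fin 4) : Fin 4 := ![1, 0, 3, 2] v

lemma omega_sq' (v : Fin 4) : (ω : QA k) * ω = xv v * xv (par v) + xv (o1 v) * xv (o2 v) := by
  rw [omega_sq]
  fin_cases v <;> simp [par, o1, o2] <;> ring

/-- Dehomogenization of polynomials. -/
def gv (v : Fin 4) : S4 k →+* R3 k :=
  eval₂Hom C (fun j => if j = v then 1 else if j = o1 v then X 1 else if j = o2 v then X 2
    else X 0 * X 0 - X 1 * X 2)

lemma gv_self (v : Fin 4) : gv v (X v : S4 k) = 1 := by simp [gv]

lemma gv_o1 (v : Fin 4) : gv v (X (o1 v) : S4 k) = X 1 := by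
  have h : o1 v ≠ v := by fin_cases v <;> simp [o1]
  simp [gv, h]

lemma gv_o2 (v : Fin 4) : gv v (X (o2 v) : S4 k) = X 2 := by
  have h : o2 v ≠ v := by fin_cases v <;> simp [o2]
  have h' : o2 v ≠ o1 v := by fin_cases v <;> simp [o2, o1]
  simp [gv, h, h']

lemma gv_par (v : Fin 4) : gv v (X (par v) : S4 k) = X 0 * X 0 - X 1 * X 2 := by
  have h : par v ≠ v := by fin_cases v <;> simp [par]
  have h' : par v ≠ o1 v := by fin_cases v <;> simp [par, o1]
  have h'' : par v ≠ o2 v := by fin_cases v <;> simp [par, o2]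
  simp [gv, h, h', h'']

lemma G4_eq (v : Fin 4) : G4 k = X v * X (par v) + X (o1 v) * X (o2 v) := by
  fin_cases v <;> simp [par, o1, o2, G4] <;> ring

/-- Dehomogenization. -/
def phi (v : Fin 4) : QA k →+* R3 k := liftQ (gv v) (X 0) (by
  rw [G4_eq v]
  simp only [map_add, map_mul, gv_self, gv_o1, gv_o2, gv_par]
  ring)

lemma phi_self (v : Fin 4) : phi v (xv v : QA k) = 1 := by
  rw [phi, liftQ_xv, gv_self]

lemma phi_o1 (v : Fin 4) : phi v (xv (o1 v) : QA k) = X 1 := by
  rw [phi, liftQ_xv, gv_o1]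

lemma phi_o2 (v : Fin 4) : phi v (xv (o2 v) : QA k) = X 2 := by
  rw [phi, liftQ_xv, gv_o2]

lemma phi_par (v : Fin 4) : phi v (xv (par v) : QA k) = X 0 * X 0 - X 1 * X 2 := by
  rw [phi, liftQ_xv, gv_par]

lemma phi_omega (v : Fin 4) : phi v (ω : QA k) = X 0 := by
  rw [phi, liftQ_omega]

lemma phi_algebraMap (v : Fin 4) (c : k) : phi v (algebraMap k (QA k) c) = C c := by
  rw [phi, liftQ_algebraMap]
  simp [gv]

/-- The ring of the chart `D₊(x_v)`. -/
abbrev Aw (k : Type) [Field k] (v : Fin 4) : Type := Away (gr k) (xv v)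

/-- `a / x_v`. -/
abbrev frv (v : Fin 4) (a : QA k) (ha : a ∈ gr k 1) : Aw k v := fr (gr k) (xv_mem v) a ha

/-- The chart. -/
def Phi (v : Fin 4) : R3 k →+* Aw k v :=
  eval₂Hom (cst (gr k) (xv v)) ![frv v ω omega_mem, frv v (xv (o1 v)) (xv_mem _),
    frv v (xv (o2 v)) (xv_mem _)]

/-- The inverse of the chart. -/
def Psi (v : Fin 4) : Aw k v →+* R3 k :=
  (Localization.awayLift (phi v) (xv v) (by rw [phi_self]; exact isUnit_one)).comp
    (algebraMap (Aw k v) (Localization.Away (xv v : QA k)))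

lemma Psi_frv (v : Fin 4) (a : QA k) (ha : a ∈ gr k 1) : Psi v (frv v a ha) = phi v a := by
  rw [Psi, RingHom.comp_apply, HomogeneousLocalization.algebraMap_apply, Away.val_mk]
  have h := Localization.awayLift_mk (phi v) (xv v : QA k) a 1 (by rw [phi_self, one_mul]) 1
  rw [h]
  simp

lemma Psi_cst (v : Fin 4) (c : k) : Psi v (cst (gr k) (xv v) c) = C c := by
  rw [Psi, RingHom.comp_apply, HomogeneousLocalization.algebraMap_apply, val_cst]
  have := IsLocalization.Away.lift_eq (S := Localization.Away (xv v : QA k)) (xv v : QA k)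
    (g := phi v) (by rw [phi_self]; exact isUnit_one) (algebraMap k (QA k) c)
  rw [← phi_algebraMap v c, ← this]

lemma Psi_Phi (v : Fin 4) (p : R3 k) : Psi v (Phi v p) = p := by
  have h : (Psi v).comp (Phi v) = RingHom.id (R3 k) := by
    apply MvPolynomial.ringHom_ext
    · intro c
      simp [Phi, Psi_cst]
    · intro i
      simp only [RingHom.comp_apply, Phi, coe_eval₂Hom, eval₂_X, RingHom.id_apply]
      fin_cases i
      · exact (Psi_frv v ω omega_mem).trans (phi_omega v)
      · exact (Psi_frv v _ (xv_mem _)).trans (phi_o1 v)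
      · exact (Psi_frv v _ (xv_mem _)).trans (phi_o2 v)
  exact congrArg (fun f => f p) h

lemma frv_self (v : Fin 4) : frv v (xv v : QA k) (xv_mem v) = 1 := by
  apply val_injective
  rw [Away.val_mk, val_one]
  simp

lemma frv_par (v : Fin 4) : frv v (xv (par v) : QA k) (xv_mem _) =
    frv v ω omega_mem * frv v ω omega_mem -
      frv v (xv (o1 v)) (xv_mem _) * frv v (xv (o2 v)) (xv_mem _) := by
  apply val_injective
  rw [val_sub, val_mul, val_mul]
  simp only [Away.val_mk]
  rw [Localization.mk_mul, Localization.mk_mul, Localization.sub_mk, Localization.mk_eq_mk_iff,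
    Localization.r_iff_exists]
  refine ⟨1, ?_⟩
  simp only [OneMemClass.coe_one, one_mul, Submonoid.coe_mul, pow_one]
  rw [omega_sq' v]
  ring

lemma Phi_surjective (v : Fin 4) : Function.Surjective (Phi (k := k) v) := by
  intro z
  have hX : ∀ i, Phi (k := k) v (X i) ∈ (Phi (k := k) v).range := fun i => ⟨X i, rfl⟩
  have h0 : frv v ω omega_mem ∈ (Phi (k := k) v).range := ⟨X 0, by simp [Phi]⟩
  have h1 : frv v (xv (o1 v)) (xv_mem _) ∈ (Phi (k := k) v).range := ⟨X 1, by simp [Phi]⟩
  have h2 : frv v (xv (o2 v)) (xv_mem _) ∈ (Phi (k := k) v).range := ⟨X 2, by simp [Phi]⟩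
  have h3 : frv v (xv (par v)) (xv_mem _) ∈ (Phi (k := k) v).range := by
    rw [frv_par]
    exact sub_mem (mul_mem h0 h0) (mul_mem h1 h2)
  have h4 : frv v (xv v) (xv_mem _) ∈ (Phi (k := k) v).range := by
    rw [frv_self]
    exact one_mem _
  refine away_top (gr k) (Fin.cons ω xv : Fin 5 → QA k) ?_ adjoin_eq_top (xv_mem v)
    (Phi (k := k) v).range ?_ ?_ z
  · intro i
    refine Fin.cases ?_ (fun j => ?_) i
    · exact omega_mem
    · exact xv_mem j
  · intro c
    exact ⟨C c, by simp [Phi]⟩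
  · intro i
    refine Fin.cases ?_ (fun j => ?_) i
    · exact h0
    · have hj : j = v ∨ j = par v ∨ j = o1 v ∨ j = o2 v := by
        fin_cases v <;> fin_cases j <;> simp [par, o1, o2]
      rcases hj with rfl | rfl | rfl | rfl
      · exact h4
      · exact h3
      · exact h1
      · exact h2

lemma Phi_bijective (v : Fin 4) : Function.Bijective (Phi (k := k) v) :=
  ⟨Function.LeftInverse.injective (Psi_Phi v), Phi_surjective v⟩

/-- The chart as an isomorphism. -/
def chartEquiv (v : Fin 4) : R3 k ≃+* Aw k v := RingEquiv.ofBijective (Phi v) (Phi_bijective v)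

end

end Pool.Agent.W517
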