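import Mathlib
import Pool.Agent.Helper922.StmtDefs

/-!
Definitions: vector fields on open subsets of a `k`-scheme (sections of the tangent sheaf), maps
from a line sheaf to the tangent sheaf, and projective space.
-/

open AlgebraicGeometry CategoryTheory Pool.Agent.Helper922.VS

namespace Pool.Agent.W517

noncomputable section

/-- A vector field on the open subset `U` of the `k`-scheme `p : X ⟶ Spec k`: a section over `U` of
the tangent sheaf `T_X = Der_k(O_X, O_X)`. It consists of derivations `D V : O_X(V) → O_X(V)`, for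
all open subsets `V` of `U`, which vanish on the constants from `k` (and so are `k`-linear) and
commute with the restriction maps. -/
structure VField {k : Type} [Field k] {X : Scheme.{0}} (p : X ⟶ Spec (CommRingCat.of k))
    (U : X.Opens) where
  D : ∀ V : X.Opens, V ≤ U → Reg X V → Reg X V
  map_add : ∀ (V : X.Opens) (h : V ≤ U) (s t : Reg X V), D V h (s + t) = D V h s + D V h t
  leibniz : ∀ (V : X.Opens) (h : V ≤ U) (s t : Reg X V),
    D V h (s * t) = s * D V h t + t * D V h s
  map_const : ∀ (V : X.Opens) (h : V ≤ U) (c : k), D V h (baseHom p V c) = 0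
  map_res : ∀ (V W : X.Opens) (hV : V ≤ U) (hW : W ≤ V) (s : Reg X V),
    rs hW (D V hV s) = D W (hW.trans hV) (rs hW s)

/-- A morphism of `O_X`-modules `L → T_X` from the line sheaf `L` on `X` to the tangent sheaf: for
each `i` the vector field `D i` on `L.U i` is the image of the frame `e_i` of `L` over `L.U i`. The
frames are related by `e_j = g i j * e_i` on overlaps. -/
structure TangentMap {k : Type} [Field k] {X : Scheme.{0}} (p : X ⟶ Spec (CommRingCat.of k))
    (L : LineSheaf X) where
  D : ∀ i : L.ι, VField p (L.U i)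
  compat : ∀ (i j : L.ι) (W : X.Opens) (hi : W ≤ L.U i) (hj : W ≤ L.U j) (s : Reg X W),
    (D j).D W hj s = rs (le_inf hi hj) (L.g i j) * (D i).D W hi s

/-- The morphism `L → T_X` is not zero. -/
def TangentMap.Nonzero {k : Type} [Field k] {X : Scheme.{0}} {p : X ⟶ Spec (CommRingCat.of k)}
    {L : LineSheaf X} (φ : TangentMap p L) : Prop :=
  ∃ (i : L.ι) (V : X.Opens) (h : V ≤ L.U i) (s : Reg X V), (φ.D i).D V h s ≠ 0

/-- For a graded `k`-algebra the structure morphism of `Proj` to `Spec k`. -/
def projToSpec {A : Type} [CommRing A] {k : Type} [Field k] [Algebra k A]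
    (𝒜 : ℕ → Submodule k A) [GradedAlgebra 𝒜] : Proj 𝒜 ⟶ Spec (CommRingCat.of k) :=
  Proj.toSpecZero 𝒜 ≫ Spec.map (CommRingCat.ofHom (algebraMap k (𝒜 0)))

attribute [local instance] MvPolynomial.gradedAlgebra

/-- Projective space `P^n_k = Proj k[X_0, …, X_n]`. -/
abbrev PSpace (k : Type) [Field k] (n : ℕ) : Scheme.{0} :=
  Proj (MvPolynomial.homogeneousSubmodule (Fin (n + 1)) k)

/-- The structure morphism of projective space. -/
abbrev PSpace.toSpec (k : Type) [Field k] (n : ℕ) : PSpace k n ⟶ Spec (CommRingCat.of k) :=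
  projToSpec (MvPolynomial.homogeneousSubmodule (Fin (n + 1)) k)

end

end Pool.Agent.W517
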