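import Mathlib
import Pool.Agent.W517.Loc
import Pool.Agent.W517.TDefs

/-!
Vector fields on `Proj` from derivations preserving degrees.
-/

open AlgebraicGeometry CategoryTheory HomogeneousLocalization Opposite TopologicalSpace
open ProjectiveSpectrum.StructureSheaf Pool.Agent.Helper922.VS

namespace Pool.Agent.W517

noncomputable section

variable {A : Type} [CommRing A] {k : Type} [Field k] [Algebra k A]
variable {𝒜 : ℕ → Submodule k A} [GradedAlgebra 𝒜]
variable {δ : Derivation k A A} (hδ : PreservesDegree 𝒜 δ)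

set_option backward.isDefEq.respectTransparency.types false in
lemma pred_der (U : (Opens (ProjectiveSpectrum.top 𝒜))ᵒᵖ)
    (s : ∀ x : U.unop, AtPrime 𝒜 (HomogeneousIdeal.toIdeal (ProjectiveSpectrum.asHomogeneousIdeal x.1)))
    (hs : (isLocallyFraction 𝒜).pred s) :
    (isLocallyFraction 𝒜).pred (fun x => derHL hδ _ (s x)) := fun x => by
  rcases hs x with ⟨V, m, i, j, ⟨r, r_mem⟩, ⟨t, t_mem⟩, nin, hy⟩
  refine ⟨V, m, i, j + j, ⟨δ r * t - r * δ t, ?_⟩, ⟨t * t, SetLike.mul_mem_graded t_mem t_mem⟩,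
    fun y => ?_, fun y => ?_⟩
  · exact sub_mem (SetLike.mul_mem_graded (hδ _ _ r_mem) t_mem)
      (SetLike.mul_mem_graded r_mem (hδ _ _ t_mem))
  · exact y.1.asHomogeneousIdeal.toIdeal.primeCompl.mul_mem (nin y) (nin y)
  · have := hy y
    dsimp only at this ⊢
    rw [this]
    rfl

/-- The operation of a degree preserving derivation on the sections of the structure sheaf. -/
def projD (U : (Proj 𝒜).Opens) (s : Γ(Proj 𝒜, U)) : Γ(Proj 𝒜, U) :=
  (⟨fun x => derHL hδ _ (s.1 x), pred_der hδ (op U) s.1 s.2⟩ :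
    (ProjectiveSpectrum.Proj.structureSheaf 𝒜).1.obj (op U))

lemma toSpecΓ_aux {X : Scheme.{0}} (U : X.Opens) (hU : U = ⊤) :
    (Scheme.topIso X).inv ≫ (Scheme.isoOfEq X hU).inv ≫ U.toSpecΓ =
      X.toSpecΓ ≫ Spec.map (X.presheaf.map (homOfLE (hU.ge : ⊤ ≤ U)).op) := by
  subst hU
  simp

variable (𝒜) in
/-- The constants as global functions on `Proj`. -/
def constHom : CommRingCat.of k ⟶ Γ(Proj 𝒜, ⊤) :=
  CommRingCat.ofHom (algebraMap k (𝒜 0)) ≫ CommRingCat.ofHom (fromZeroRingHom 𝒜 _) ≫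
    Proj.awayToSection 𝒜 1 ≫ (Proj 𝒜).presheaf.map (homOfLE (Proj.basicOpen_one 𝒜).ge).op

variable (𝒜) in
lemma projToSpec_eq : projToSpec 𝒜 = (Proj 𝒜).toSpecΓ ≫ Spec.map (constHom 𝒜) := by
  rw [projToSpec, Proj.toSpecZero, Proj.basicOpenToSpec]
  have h := toSpecΓ_aux (Proj.basicOpen 𝒜 1) (Proj.basicOpen_one 𝒜)
  simp only [Category.assoc]
  rw [reassoc_of% h]
  simp only [← Spec.map_comp]
  rfl

lemma baseHom_eq {X : Scheme.{0}} (φ : CommRingCat.of k ⟶ Γ(X, ⊤)) (U : X.Opens) (c : k) :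
    baseHom (X.toSpecΓ ≫ Spec.map φ) U c = rs (le_top : U ≤ ⊤) (φ.hom c : Reg X ⊤) := by
  have h : ∀ e : U ≤ (X.toSpecΓ ≫ Spec.map φ) ⁻¹ᵁ ⊤,
      (Scheme.ΓSpecIso (CommRingCat.of k)).inv ≫ (X.toSpecΓ ≫ Spec.map φ).appLE ⊤ U e =
      φ ≫ X.presheaf.map (homOfLE (le_top : U ≤ ⊤)).op := by
    intro e
    rw [Scheme.Hom.comp_appLE]
    have h1 := Scheme.ΓSpecIso_inv_naturality φ
    have h2 : X.toSpecΓ.appTop = (Scheme.ΓSpecIso Γ(X, ⊤)).hom := Scheme.toSpecΓ_appTop X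
    have h3 : (Scheme.ΓSpecIso (CommRingCat.of k)).inv ≫ (Spec.map φ).appTop ≫ X.toSpecΓ.appTop
        = φ := by
      rw [← reassoc_of% h1, h2]
      simp
    exact (reassoc_of% h3) _
  exact congrArg (fun f => f.hom c) (h _)

variable (𝒜) in
/-- The constants as global functions on `Proj`. -/
def constFun (c : k) : Reg (Proj 𝒜) ⊤ := (constHom 𝒜).hom c

lemma baseHom_projToSpec (U : (Proj 𝒜).Opens) (c : k) :
    baseHom (projToSpec 𝒜) U c = rs (le_top : U ≤ ⊤) (constFun 𝒜 c) := by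
  rw [projToSpec_eq]
  exact baseHom_eq _ _ _

variable (𝒜) in
/-- The local ring at a point. -/
abbrev PtRing (x : ProjectiveSpectrum 𝒜) : Type := AtPrime 𝒜 x.asHomogeneousIdeal.toIdeal

/-- The value of a function at a point of `Proj`, in the degree `0` part of the localization. -/
def valAt {U : (Proj 𝒜).Opens} (s : Reg (Proj 𝒜) U) (x : ProjectiveSpectrum 𝒜) (hx : x ∈ U) :
    PtRing 𝒜 x :=
  (show (ProjectiveSpectrum.Proj.structureSheaf 𝒜).1.obj (op U) from s).1 ⟨x, hx⟩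

lemma valAt_ext {U : (Proj 𝒜).Opens} {s t : Reg (Proj 𝒜) U} (h : ∀ x hx, valAt s x hx = valAt t x hx) :
    s = t := by
  have : (show (ProjectiveSpectrum.Proj.structureSheaf 𝒜).1.obj (op U) from s) =
      (show (ProjectiveSpectrum.Proj.structureSheaf 𝒜).1.obj (op U) from t) := by
    apply Subtype.ext
    funext x
    exact h x.1 x.2
  exact this

lemma valAt_rs {U V : (Proj 𝒜).Opens} (h : U ≤ V) (s : Reg (Proj 𝒜) V) (x : ProjectiveSpectrum 𝒜)
    (hx : x ∈ U) : valAt (rs h s) x hx = valAt s x (h hx) := rfl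

lemma valAt_add {U : (Proj 𝒜).Opens} (s t : Reg (Proj 𝒜) U) (x : ProjectiveSpectrum 𝒜)
    (hx : x ∈ U) : valAt (s + t) x hx = valAt s x hx + valAt t x hx := rfl

lemma valAt_mul {U : (Proj 𝒜).Opens} (s t : Reg (Proj 𝒜) U) (x : ProjectiveSpectrum 𝒜)
    (hx : x ∈ U) : valAt (s * t) x hx = valAt s x hx * valAt t x hx := rfl

lemma valAt_zero {U : (Proj 𝒜).Opens} (x : ProjectiveSpectrum 𝒜)
    (hx : x ∈ U) : valAt (0 : Reg (Proj 𝒜) U) x hx = 0 := rfl

lemma valAt_one {U : (Proj 𝒜).Opens} (x : ProjectiveSpectrum 𝒜)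
    (hx : x ∈ U) : valAt (1 : Reg (Proj 𝒜) U) x hx = 1 := rfl

lemma valAt_projD (U : (Proj 𝒜).Opens) (s : Reg (Proj 𝒜) U) (x : ProjectiveSpectrum 𝒜)
    (hx : x ∈ U) : valAt (projD hδ U s : Reg (Proj 𝒜) U) x hx = derHL hδ _ (valAt s x hx) := rfl

variable (𝒜) in
/-- The function on `D₊(f)` defined by an element of `A_(f)`. -/
def secOf (f : A) (a : Away 𝒜 f) : Reg (Proj 𝒜) (Proj.basicOpen 𝒜 f) :=
  (Proj.awayToSection 𝒜 f).hom a

lemma val_secOf (f : A) (a : Away 𝒜 f) (x : ProjectiveSpectrum 𝒜) (hx : x ∈ Proj.basicOpen 𝒜 f) :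
    (valAt (secOf 𝒜 f a) x hx).val = IsLocalization.map (M := Submonoid.powers f)
      (T := x.asHomogeneousIdeal.toIdeal.primeCompl)
      (Localization x.asHomogeneousIdeal.toIdeal.primeCompl) (RingHom.id A)
      (Submonoid.powers_le.mpr hx) a.val :=
  ProjectiveSpectrum.Proj.awayToSection_apply 𝒜 f a ⟨x, hx⟩

lemma val_secOf_mk {f : A} (n : NumDenSameDeg 𝒜 (Submonoid.powers f)) (x : ProjectiveSpectrum 𝒜)
    (hx : x ∈ Proj.basicOpen 𝒜 f) :
    (valAt (secOf 𝒜 f (mk n)) x hx).val =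
      Localization.mk (n.num : A) ⟨n.den, Submonoid.powers_le.mpr hx n.den_mem⟩ := by
  rw [val_secOf, val_mk, Localization.mk_eq_mk', IsLocalization.map_mk']
  simp [Localization.mk_eq_mk']

lemma valAt_const {U : (Proj 𝒜).Opens} (c : k) (x : ProjectiveSpectrum 𝒜) (hx : x ∈ U) :
    (valAt (baseHom (projToSpec 𝒜) U c) x hx).val = algebraMap A _ (algebraMap k A c) := by
  rw [baseHom_projToSpec, valAt_rs]
  have hx1 : x ∈ Proj.basicOpen 𝒜 (1 : A) :=
    fun h1 => x.isPrime.ne_top ((Ideal.eq_top_iff_one _).2 h1)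
  have h := val_secOf_mk (f := (1 : A)) ⟨0, algebraMap k (𝒜 0) c, 1, one_mem _⟩ x hx1
  refine Eq.trans h ?_
  rw [← Localization.mk_one_eq_algebraMap]
  rfl

/-- The vector field on `Proj` defined by a degree preserving derivation. -/
def projVF (U : (Proj 𝒜).Opens) : VField (projToSpec 𝒜) U where
  D V _ s := projD hδ V s
  map_add V _ s t := valAt_ext fun x hx => derHL_add hδ _ _ _
  leibniz V _ s t := valAt_ext fun x hx => derHL_mul hδ _ _ _
  map_const V _ c := valAt_ext fun x hx => by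
    rw [valAt_projD]
    apply HomogeneousLocalization.val_injective
    rw [val_derHL, valAt_const, derLoc_algebraMap, valAt_zero]
    simp
  map_res V W hV hW s := rfl

end

end Pool.Agent.W517
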