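import Mathlib
import Pool.Agent.W517.Chart
import Pool.Agent.W517.ProjVF
import Pool.Agent.Helper165.StdSmooth

/-!
The quadric threefold is a smooth projective variety.
-/

open AlgebraicGeometry CategoryTheory HomogeneousLocalization Opposite TopologicalSpace
open Pool.Agent.Helper922.VS

namespace Pool.Agent.W517

noncomputable section

section General

lemma smooth_hasRHP (n : ℕ) :
    HasRingHomProperty (@SmoothOfRelativeDimension.{0} n)
      (RingHom.Locally (RingHom.IsStandardSmoothOfRelativeDimension n)) := inferInstance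

instance smooth_zariskiLocal (n : ℕ) :
    IsZariskiLocalAtSource (@SmoothOfRelativeDimension.{0} n) :=
  @HasRingHomProperty.instIsZariskiLocalAtSource _ _ (smooth_hasRHP n)

instance smooth_respIso (n : ℕ) :
    MorphismProperty.RespectsIso (@SmoothOfRelativeDimension.{0} n) :=
  (smooth_zariskiLocal n).toRespects

variable {A : Type} [CommRing A] {k : Type} [Field k] [Algebra k A]
variable (𝒜 : ℕ → Submodule k A) [GradedAlgebra 𝒜]

/-- The zero ideal as a point of `Proj 𝒜`. -/
def zeroPoint [IsDomain A] (h : ∃ i > 0, ∃ f ∈ 𝒜 i, f ≠ 0) : ProjectiveSpectrum 𝒜 where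
  asHomogeneousIdeal := ⊥
  isPrime := by
    rw [HomogeneousIdeal.toIdeal_bot]
    exact Ideal.isPrime_bot
  not_irrelevant_le := by
    obtain ⟨i, hi, f, hf, hf0⟩ := h
    intro hle
    have h1 : f ∈ HomogeneousIdeal.irrelevant 𝒜 := by
      rw [HomogeneousIdeal.mem_irrelevant_iff, GradedRing.proj_apply,
        DirectSum.decompose_of_mem_ne 𝒜 hf (by omega)]
    have h2 : f ∈ (⊥ : HomogeneousIdeal 𝒜).toIdeal := hle h1
    rw [HomogeneousIdeal.toIdeal_bot] at h2
    exact hf0 (by simpa using h2)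

theorem irreducible_space [IsDomain A]
    (h : ∃ i > 0, ∃ f ∈ 𝒜 i, f ≠ 0) : IrreducibleSpace (ProjectiveSpectrum 𝒜) := by
  let η : ProjectiveSpectrum 𝒜 := zeroPoint 𝒜 h
  have hη : closure ({η} : Set (ProjectiveSpectrum 𝒜)) = Set.univ := by
    rw [← dense_iff_closure_eq, (ProjectiveSpectrum.isTopologicalBasis_basic_opens 𝒜).dense_iff]
    rintro _ ⟨f, rfl⟩ ⟨y, hy⟩
    refine ⟨η, ?_, rfl⟩
    have hf : f ≠ 0 := by
      rintro rfl
      exact hy (zero_mem _)
    show f ∉ (⊥ : HomogeneousIdeal 𝒜).toIdeal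
    rw [HomogeneousIdeal.toIdeal_bot]
    simpa using hf
  have h1 : IsIrreducible (closure ({η} : Set (ProjectiveSpectrum 𝒜))) :=
    isIrreducible_singleton.closure
  rw [hη] at h1
  have : PreirreducibleSpace (ProjectiveSpectrum 𝒜) := ⟨h1.2⟩
  exact ⟨⟨η⟩⟩

theorem projIntegral [IsDomain A] (h : ∃ i > 0, ∃ f ∈ 𝒜 i, f ≠ 0) : IsIntegral (Proj 𝒜) := by
  have hred : ∀ x : Proj 𝒜, _root_.IsReduced ((Proj 𝒜).presheaf.stalk x) := by
    intro x
    have hp : x.asHomogeneousIdeal.toIdeal.IsPrime := ProjectiveSpectrum.isPrime x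
    have h1 : Function.Injective (Proj.stalkIso 𝒜 x).hom :=
      (Proj.stalkIso 𝒜 x).commRingCatIsoToRingEquiv.injective
    have h2 : Function.Injective
        (algebraMap (AtPrime 𝒜 x.asHomogeneousIdeal.toIdeal)
          (Localization x.asHomogeneousIdeal.toIdeal.primeCompl)) :=
      HomogeneousLocalization.val_injective _
    have : IsDomain (Localization x.asHomogeneousIdeal.toIdeal.primeCompl) :=
      IsLocalization.isDomain_localization (Ideal.primeCompl_le_nonZeroDivisors _)
    have h3 : _root_.IsReduced (AtPrime 𝒜 x.asHomogeneousIdeal.toIdeal) :=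
      isReduced_of_injective _ h2
    exact isReduced_of_injective (Proj.stalkIso 𝒜 x).hom.hom h1
  have : IsReduced (Proj 𝒜) := isReduced_of_isReduced_stalk _
  have : IrreducibleSpace (Proj 𝒜) := irreducible_space 𝒜 h
  exact isIntegral_of_irreducibleSpace_of_isReduced _

theorem projProper [Algebra.FiniteType (𝒜 0) A] (h : Function.Bijective (algebraMap k (𝒜 0))) :
    IsProper (projToSpec 𝒜) := by
  have : IsIso (CommRingCat.ofHom (algebraMap k (𝒜 0))) := by
    rw [ConcreteCategory.isIso_iff_bijective]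
    exact h
  unfold projToSpec
  infer_instance

variable (k) in
lemma smooth_mv (σ : Type) [Finite σ] :
    Algebra.IsStandardSmoothOfRelativeDimension (Nat.card σ) k (MvPolynomial σ k) := by
  apply Pool.Agent.Helper165.isStandardSmooth_of_bijective (MvPolynomial.X (R := k) (σ := σ))
  rw [MvPolynomial.aeval_X_left]
  exact Function.bijective_id

lemma awayι_projToSpec {f : A} (hf : f ∈ 𝒜 1) :
    Proj.awayι 𝒜 f hf one_pos ≫ projToSpec 𝒜 = Spec.map (CommRingCat.ofHom (cst 𝒜 f)) := by
  rw [projToSpec, Proj.awayι_toSpecZero_assoc, ← Spec.map_comp]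
  rfl

/-- `Proj 𝒜` is smooth of relative dimension `n` if it is covered by the `D₊(g i)` and these are
affine spaces of dimension `n`. -/
theorem projSmooth {ι : Type} (g : ι → A) (hg : ∀ i, g i ∈ 𝒜 1)
    (hcov : ⨆ i, Proj.basicOpen 𝒜 (g i) = ⊤) (σ : Type) [Finite σ]
    (e : ∀ i, MvPolynomial σ k ≃+* Away 𝒜 (g i))
    (he : ∀ i c, e i (MvPolynomial.C c) = cst 𝒜 (g i) c) :
    SmoothOfRelativeDimension (Nat.card σ) (projToSpec 𝒜) := by
  have hcov' : ⨆ i, (Proj.awayι 𝒜 (g i) (hg i) one_pos).opensRange = ⊤ := by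
    simp only [Proj.opensRange_awayι]
    exact hcov
  rw [IsZariskiLocalAtSource.iff_of_iSup_eq_top (P := @SmoothOfRelativeDimension (Nat.card σ))
    _ hcov']
  intro i
  rw [← MorphismProperty.cancel_left_of_respectsIso (P := @SmoothOfRelativeDimension (Nat.card σ))
    (Proj.awayι 𝒜 (g i) (hg i) one_pos).isoOpensRange.hom]
  rw [← Category.assoc, Scheme.Hom.isoOpensRange_hom_ι, awayι_projToSpec,
    HasRingHomProperty.Spec_iff (P := @SmoothOfRelativeDimension (Nat.card σ))]
  apply RingHom.locally_of RingHom.isStandardSmoothOfRelativeDimension_respectsIso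
  have h1 : cst 𝒜 (g i) = (e i : MvPolynomial σ k →+* Away 𝒜 (g i)).comp
      (algebraMap k (MvPolynomial σ k)) := by
    ext1 c
    exact (he i c).symm
  change RingHom.IsStandardSmoothOfRelativeDimension (Nat.card σ) (cst 𝒜 (g i))
  rw [h1]
  exact RingHom.isStandardSmoothOfRelativeDimension_respectsIso.1 _ _
    ((RingHom.isStandardSmoothOfRelativeDimension_algebraMap (Nat.card σ)).2 (smooth_mv k σ))

end General

end

end Pool.Agent.W517
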