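import Mathlib
import Pool.Agent.W517.XProps

/-!
The line sheaf `O(1)` on `Proj` and its ampleness; the map to the tangent sheaf.
-/

open AlgebraicGeometry CategoryTheory HomogeneousLocalization Opposite TopologicalSpace
open Pool.Agent.Helper922.VS

namespace Pool.Agent.W517

noncomputable section

section General

variable {A : Type} [CommRing A] {k : Type} [Field k] [Algebra k A]
variable {𝒜 : ℕ → Submodule k A} [GradedAlgebra 𝒜]

/-- A function on an open subset of `Proj` does not vanish at a point iff its value is a unit. -/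
lemma mem_nz {U : (Proj 𝒜).Opens} (s : Reg (Proj 𝒜) U) (x : ProjectiveSpectrum 𝒜) (hx : x ∈ U) :
    (show (Proj 𝒜 : Type) from x) ∈ nz s ↔ IsUnit (valAt s x hx) := by
  have h1 : (show (Proj 𝒜 : Type) from x) ∈ nz s ↔
      IsUnit ((Proj 𝒜).presheaf.germ U x hx s) := Scheme.mem_basicOpen _ _ _ hx
  rw [h1]
  have h2 := Proj.stalkIso'_germ 𝒜 U x hx s
  have h3 : valAt s x hx = Proj.stalkIso' 𝒜 x ((Proj 𝒜).presheaf.germ U x hx s) := h2.symm
  rw [h3]
  exact (MulEquiv.isUnit_map (Proj.stalkIso' 𝒜 x)).symm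

/-- The function `a / f` on `D₊(f)`, for `a`, `f` of degree one. -/
def frs {f a : A} (hf : f ∈ 𝒜 1) (ha : a ∈ 𝒜 1) : Reg (Proj 𝒜) (Proj.basicOpen 𝒜 f) :=
  secOf 𝒜 f (fr 𝒜 hf a ha)

lemma val_frs {f a : A} (hf : f ∈ 𝒜 1) (ha : a ∈ 𝒜 1) (x : ProjectiveSpectrum 𝒜)
    (hx : x ∈ Proj.basicOpen 𝒜 f) :
    (valAt (frs hf ha) x hx).val = Localization.mk a ⟨f, hx⟩ := by
  have h := val_secOf_mk (𝒜 := 𝒜) (f := f) ⟨1 • 1, ⟨a, by simpa using ha⟩,
    ⟨f ^ 1, SetLike.pow_mem_graded 1 hf⟩, ⟨1, rfl⟩⟩ x hx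
  refine h.trans ?_
  congr 1
  apply Subtype.ext
  simp

lemma val_rs_frs {f a : A} (hf : f ∈ 𝒜 1) (ha : a ∈ 𝒜 1) {W : (Proj 𝒜).Opens}
    (hW : W ≤ Proj.basicOpen 𝒜 f) (x : ProjectiveSpectrum 𝒜) (hx : x ∈ W) :
    (valAt (rs hW (frs hf ha)) x hx).val = Localization.mk a ⟨f, hW hx⟩ := by
  rw [valAt_rs, val_frs]

lemma isUnit_frs {f a : A} (hf : f ∈ 𝒜 1) (ha : a ∈ 𝒜 1) (x : ProjectiveSpectrum 𝒜)
    (hx : x ∈ Proj.basicOpen 𝒜 f) :
    IsUnit (valAt (frs hf ha) x hx) ↔ x ∈ Proj.basicOpen 𝒜 a := by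
  rw [← isUnit_iff_isUnit_val, val_frs, Localization.mk_eq_mk',
    IsLocalization.AtPrime.isUnit_mk'_iff (Localization.AtPrime x.asHomogeneousIdeal.toIdeal)]
  rfl

lemma nz_frs {f a : A} (hf : f ∈ 𝒜 1) (ha : a ∈ 𝒜 1) :
    nz (frs hf ha) = Proj.basicOpen 𝒜 f ⊓ Proj.basicOpen 𝒜 a := by
  apply TopologicalSpace.Opens.ext
  ext x
  constructor
  · intro h
    have h1 : x ∈ Proj.basicOpen 𝒜 f := (Proj 𝒜).basicOpen_le _ h
    exact ⟨h1, (isUnit_frs hf ha x h1).1 ((mem_nz _ _ h1).1 h)⟩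
  · rintro ⟨h1, h2⟩
    exact (mem_nz _ _ h1).2 ((isUnit_frs hf ha x h1).2 h2)

lemma mk_mul_mk' {M : Submonoid A} (a b c : A) (ha : a ∈ M) (hb : b ∈ M) :
    Localization.mk b (⟨a, ha⟩ : M) * Localization.mk c ⟨b, hb⟩ = Localization.mk c ⟨a, ha⟩ := by
  rw [Localization.mk_mul, Localization.mk_eq_mk_iff, Localization.r_iff_exists]
  refine ⟨1, ?_⟩
  simp only [OneMemClass.coe_one, one_mul, Submonoid.coe_mul]
  ring

variable {ι : Type} (g : ι → A) (hg : ∀ i, g i ∈ 𝒜 1)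
  (hcov : ⨆ i, Proj.basicOpen 𝒜 (g i) = ⊤)

/-- The transition functions of `O(1)`. -/
def O1g (i j : ι) : Reg (Proj 𝒜) (Proj.basicOpen 𝒜 (g i) ⊓ Proj.basicOpen 𝒜 (g j)) :=
  rs inf_le_left (frs (hg i) (hg j))

lemma val_O1g (i j : ι) {W : (Proj 𝒜).Opens}
    (hW : W ≤ Proj.basicOpen 𝒜 (g i) ⊓ Proj.basicOpen 𝒜 (g j)) (x : ProjectiveSpectrum 𝒜)
    (hx : x ∈ W) :
    (valAt (rs hW (O1g g hg i j)) x hx).val = Localization.mk (g j) ⟨g i, (hW hx).1⟩ :=
  val_frs (hg i) (hg j) x (hW hx).1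

/-- The line sheaf `O(1)`, with frames `g i` on `D₊(g i)`. -/
def O1 : LineSheaf (Proj 𝒜) where
  ι := ι
  U i := Proj.basicOpen 𝒜 (g i)
  covers x := by
    have : x ∈ (⊤ : (Proj 𝒜).Opens) := trivial
    rw [← hcov] at this
    exact TopologicalSpace.Opens.mem_iSup.1 this
  g i j := O1g g hg i j
  self i := valAt_ext fun x hx => by
    apply val_injective
    rw [valAt_one, val_one]
    exact (val_O1g g hg i i le_rfl x hx).trans (Localization.mk_self (⟨g i, hx.1⟩ :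
      x.asHomogeneousIdeal.toIdeal.primeCompl))
  cocycle i j l W hi hj hl := valAt_ext fun x hx => by
    apply val_injective
    rw [valAt_mul, val_mul, val_O1g, val_O1g, val_O1g]
    exact mk_mul_mk' _ _ _ _ _

/-- The section of `O(1)` defined by an element of degree one. -/
def O1sec {a : A} (ha : a ∈ 𝒜 1) : (O1 g hg hcov).PowSection 1 where
  s i := frs (hg i) ha
  compat i j W hi hj := valAt_ext fun x hx => by
    apply val_injective
    have e1 := val_rs_frs (hg i) ha hi x hx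
    have e2 := val_rs_frs (hg j) ha hj x hx
    have e3 := val_O1g g hg i j (le_inf hi hj) x hx
    rw [pow_one, valAt_mul, val_mul]
    refine e1.trans ?_
    refine Eq.trans ?_ (congrArg₂ (· * ·) e3 e2).symm
    exact (mk_mul_mk' _ _ _ _ _).symm

lemma O1sec_nonvanishing {a : A} (ha : a ∈ 𝒜 1) :
    (O1sec g hg hcov ha).nonvanishing = Proj.basicOpen 𝒜 a := by
  have h : (O1sec g hg hcov ha).nonvanishing =
      ⨆ i, (Proj.basicOpen 𝒜 (g i) ⊓ Proj.basicOpen 𝒜 a) := by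
    unfold LineSheaf.PowSection.nonvanishing
    congr 1
    funext i
    exact nz_frs (hg i) ha
  rw [h, ← iSup_inf_eq, hcov, top_inf_eq]

lemma O1_isAmple [CompactSpace (Proj 𝒜)] : (O1 g hg hcov).IsAmple := by
  refine ⟨inferInstance, fun x => ?_⟩
  have : x ∈ (⊤ : (Proj 𝒜).Opens) := trivial
  rw [← hcov] at this
  obtain ⟨i, hi⟩ := TopologicalSpace.Opens.mem_iSup.1 this
  refine ⟨1, O1sec g hg hcov (hg i), one_pos, ?_, ?_⟩
  · rw [O1sec_nonvanishing]
    exact hi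
  · rw [O1sec_nonvanishing]
    exact Proj.isAffineOpen_basicOpen 𝒜 (g i) (hg i) one_pos

/-- If `∂` is a derivation such that all `g i • ∂` preserve degrees, it defines a map from `O(1)`
to the tangent sheaf of `Proj`. -/
def O1map (d : Derivation k A A) (hd : ∀ i, PreservesDegree 𝒜 (g i • d)) :
    TangentMap (projToSpec 𝒜) (O1 g hg hcov) where
  D i := projVF (hd i) _
  compat i j W hi hj s := valAt_ext fun x hx => by
    apply val_injective
    have e3 := val_O1g g hg i j (le_inf hi hj) x hx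
    rw [valAt_mul, val_mul]
    have e1 : (valAt ((projVF (hd j) (Proj.basicOpen 𝒜 (g j))).D W hj s) x hx).val =
      derLoc (g j • d) _ (valAt s x hx).val := val_derHL _ _ _
    have e2 : (valAt ((projVF (hd i) (Proj.basicOpen 𝒜 (g i))).D W hi s) x hx).val =
      derLoc (g i • d) _ (valAt s x hx).val := val_derHL _ _ _
    refine e1.trans ?_
    refine Eq.trans ?_ (congrArg₂ (· * ·) e3 e2).symm
    obtain ⟨c, hc⟩ := mk_surjective (valAt s x hx)
    rw [← hc, val_mk, derLoc_mk, derLoc_mk, Localization.mk_mul, Localization.mk_eq_mk_iff,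
      Localization.r_iff_exists]
    refine ⟨1, ?_⟩
    simp only [OneMemClass.coe_one, one_mul, Submonoid.coe_mul, Derivation.smul_apply, smul_eq_mul]
    ring

lemma val_projVF {δ : Derivation k A A} (hδ : PreservesDegree 𝒜 δ) (U V : (Proj 𝒜).Opens)
    (h : V ≤ U) (s : Reg (Proj 𝒜) V) (x : ProjectiveSpectrum 𝒜) (hx : x ∈ V) :
    (valAt ((projVF hδ U).D V h s) x hx).val = derLoc δ _ (valAt s x hx).val := val_derHL _ _ _

end General

end

end Pool.Agent.W517
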