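import Mathlib
import Pool.Agent.W517.XLine

/-!
Evaluating functions along a morphism from the spectrum of a local ring.
-/

open AlgebraicGeometry CategoryTheory HomogeneousLocalization Opposite TopologicalSpace
open Pool.Agent.Helper922.VS

namespace Pool.Agent.W517

noncomputable section

variable {R : Type} [CommRing R] [IsLocalRing R]

/-- The closed point of `Spec R`. -/
def cp (R : Type) [CommRing R] [IsLocalRing R] : (Spec (CommRingCat.of R) : Scheme.{0}) :=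
  IsLocalRing.closedPoint R

lemma top_le_of_mem {X : Scheme.{0}} (t : Spec (CommRingCat.of R) ⟶ X) (V : X.Opens)
    (h : t (cp R) ∈ V) : (⊤ : (Spec (CommRingCat.of R)).Opens) ≤ t ⁻¹ᵁ V := by
  have h1 : IsLocalRing.closedPoint R ∈ (t ⁻¹ᵁ V : TopologicalSpace.Opens (PrimeSpectrum R)) := h
  have h2 := (IsLocalRing.closedPoint_mem_iff _).1 h1
  exact h2.ge

/-- Evaluation of functions along a morphism from the spectrum of a local ring. -/
def ev {X : Scheme.{0}} (t : Spec (CommRingCat.of R) ⟶ X) (V : X.Opens) (h : t (cp R) ∈ V) :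
    Reg X V →+* R :=
  (Scheme.ΓSpecIso (CommRingCat.of R)).hom.hom.comp (t.appLE V ⊤ (top_le_of_mem t V h)).hom

lemma ev_rs {X : Scheme.{0}} (t : Spec (CommRingCat.of R) ⟶ X) {V W : X.Opens} (hW : t (cp R) ∈ W)
    (hWV : W ≤ V) (s : Reg X V) : ev t W hW (rs hWV s) = ev t V (hWV hW) s := by
  have h := Scheme.Hom.map_appLE t (top_le_of_mem t W hW) (homOfLE hWV).op
  have h1 := congrArg (fun f => (Scheme.ΓSpecIso (CommRingCat.of R)).hom.hom (f.hom s)) h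
  exact h1

lemma ev_pull {X Y : Scheme.{0}} (t : Spec (CommRingCat.of R) ⟶ X) (f : X ⟶ Y) {V : Y.Opens}
    {W : X.Opens} (hW : t (cp R) ∈ W) (hV : (t ≫ f) (cp R) ∈ V) (h : W ≤ f ⁻¹ᵁ V) (s : Reg Y V) :
    ev t W hW (pull f h s) = ev (t ≫ f) V hV s := by
  have h1 := Scheme.Hom.appLE_comp_appLE t f V W ⊤ h (top_le_of_mem t W hW)
  exact congrArg (fun f => (Scheme.ΓSpecIso (CommRingCat.of R)).hom.hom (f.hom s)) h1

lemma ev_base {k : Type} [Field k] {X : Scheme.{0}} (p : X ⟶ Spec (CommRingCat.of k))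
    (t : Spec (CommRingCat.of R) ⟶ X) (ρ : k →+* R)
    (hρ : t ≫ p = Spec.map (CommRingCat.ofHom ρ)) {V : X.Opens} (hV : t (cp R) ∈ V) (c : k) :
    ev t V hV (baseHom p V c) = ρ c := by
  have htop : ∀ q : Spec (CommRingCat.of R) ⟶ Spec (CommRingCat.of k),
    q (cp R) ∈ (⊤ : (Spec (CommRingCat.of k)).Opens) := fun _ => trivial
  have h1 : ev t V hV (baseHom p V c) =
      ev (t ≫ p) ⊤ (htop _) ((Scheme.ΓSpecIso (CommRingCat.of k)).inv.hom c) :=
    ev_pull t p hV (htop _) le_top _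
  rw [h1]
  have h2 : ∀ (q : Spec (CommRingCat.of R) ⟶ Spec (CommRingCat.of k))
      (_ : q = Spec.map (CommRingCat.ofHom ρ)),
      ev q ⊤ (htop _) ((Scheme.ΓSpecIso (CommRingCat.of k)).inv.hom c) = ρ c := by
    rintro q rfl
    have h3 := Scheme.ΓSpecIso_inv_naturality (CommRingCat.ofHom ρ)
    have h4 : (Scheme.ΓSpecIso (CommRingCat.of k)).inv ≫ (Spec.map (CommRingCat.ofHom ρ)).appTop ≫
        (Scheme.ΓSpecIso (CommRingCat.of R)).hom = CommRingCat.ofHom ρ := by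
      rw [← reassoc_of% h3]
      simp
    have h5 := congrArg (fun f => f.hom c) h4
    exact h5
  exact h2 _ hρ

section ProjEv

variable {A : Type} [CommRing A] {k : Type} [Field k] [Algebra k A]
variable {𝒜 : ℕ → Submodule k A} [GradedAlgebra 𝒜]

lemma awayι_appLE {f : A} (hf : f ∈ 𝒜 1)
    (h : (⊤ : (Spec (CommRingCat.of (Away 𝒜 f))).Opens) ≤
      Proj.awayι 𝒜 f hf one_pos ⁻¹ᵁ Proj.basicOpen 𝒜 f) :
    Proj.awayToSection 𝒜 f ≫ (Proj.awayι 𝒜 f hf one_pos).appLE (Proj.basicOpen 𝒜 f) ⊤ h =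
      (Scheme.ΓSpecIso _).inv := by
  have h1 : (Proj.basicOpenIsoSpec 𝒜 f hf one_pos).hom.appTop =
      (Scheme.ΓSpecIso _).hom ≫ Proj.awayToSection 𝒜 f ≫ (Proj.basicOpen 𝒜 f).topIso.inv := by
    rw [Proj.basicOpenIsoSpec_hom]
    exact Proj.basicOpenToSpec_app_top 𝒜 f
  have h2 : (Proj.basicOpenIsoSpec 𝒜 f hf one_pos).hom.appTop ≫
      (Proj.basicOpenIsoSpec 𝒜 f hf one_pos).inv.appTop = 𝟙 _ := by
    rw [← Scheme.Hom.comp_appTop]
    simp
  rw [h1] at h2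
  have h3 : (Proj.awayι 𝒜 f hf one_pos).appLE (Proj.basicOpen 𝒜 f) ⊤ h =
      (Proj.basicOpen 𝒜 f).topIso.inv ≫ (Proj.basicOpenIsoSpec 𝒜 f hf one_pos).inv.appTop := by
    have h4 := Scheme.Hom.appLE_comp_appLE (Proj.basicOpenIsoSpec 𝒜 f hf one_pos).inv
      (Proj.basicOpen 𝒜 f).ι (Proj.basicOpen 𝒜 f) ⊤ ⊤ (by simp) (by simp)
    refine Eq.trans h4.symm ?_
    rw [Scheme.Opens.ι_appLE, Scheme.Opens.topIso_inv]
    congr 1
  rw [h3]
  have h5 := congrArg (fun q => (Scheme.ΓSpecIso _).inv ≫ q) h2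
  simp only [Category.assoc, Iso.inv_hom_id_assoc, Category.comp_id] at h5
  exact h5

lemma ev_secOf {f : A} (hf : f ∈ 𝒜 1) (τ : Away 𝒜 f →+* R)
    (h : (Spec.map (CommRingCat.ofHom τ) ≫ Proj.awayι 𝒜 f hf one_pos) (cp R) ∈ Proj.basicOpen 𝒜 f)
    (a : Away 𝒜 f) :
    ev (Spec.map (CommRingCat.ofHom τ) ≫ Proj.awayι 𝒜 f hf one_pos) (Proj.basicOpen 𝒜 f) h
      (secOf 𝒜 f a) = τ a := by
  have h1 : (⊤ : (Spec (CommRingCat.of (Away 𝒜 f))).Opens) ≤
      Proj.awayι 𝒜 f hf one_pos ⁻¹ᵁ Proj.basicOpen 𝒜 f := by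
    rw [← Proj.opensRange_awayι 𝒜 f hf one_pos]
    intro x _
    exact ⟨x, rfl⟩
  have h2 := Scheme.Hom.appLE_comp_appLE (Spec.map (CommRingCat.ofHom τ))
    (Proj.awayι 𝒜 f hf one_pos) (Proj.basicOpen 𝒜 f) ⊤ ⊤ h1 le_top
  have h3 : Proj.awayToSection 𝒜 f ≫
      (Spec.map (CommRingCat.ofHom τ) ≫ Proj.awayι 𝒜 f hf one_pos).appLE (Proj.basicOpen 𝒜 f) ⊤
        (top_le_of_mem _ _ h) ≫ (Scheme.ΓSpecIso (CommRingCat.of R)).hom = CommRingCat.ofHom τ := by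
    rw [← h2]
    have h4 : (Spec.map (CommRingCat.ofHom τ)).appLE ⊤ ⊤ le_top =
      (Spec.map (CommRingCat.ofHom τ)).appTop := (Scheme.Hom.app_eq_appLE _).symm
    rw [h4, Category.assoc, reassoc_of% (awayι_appLE hf h1)]
    have h5 := Scheme.ΓSpecIso_inv_naturality (CommRingCat.ofHom τ)
    rw [← reassoc_of% h5]
    simp
  exact congrArg (fun q => q.hom a) h3

end ProjEv

end

end Pool.Agent.W517
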