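import Mathlib
import Pool.Agent.W517.XLine

/-!
The quadric threefold is a smooth projective variety with a nonzero map from an ample line sheaf
to the tangent sheaf.
-/

open AlgebraicGeometry CategoryTheory HomogeneousLocalization Opposite TopologicalSpace
open Pool.Agent.Helper922.VS
open scoped QuadraticAlgebra

namespace Pool.Agent.W517

noncomputable section

variable (k : Type) [Field k]

/-- The quadric threefold. -/
abbrev XQ : Scheme.{0} := Proj (gr k)

lemma cons_mem (i : Fin 5) : (Fin.cons ω xv : Fin 5 → QA k) i ∈ gr k 1 := by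
  refine Fin.cases ?_ (fun j => ?_) i
  · exact omega_mem
  · exact xv_mem j

lemma XQ_cover : ⨆ v, Proj.basicOpen (gr k) (xv v) = ⊤ := by
  have h := iSup_basicOpen (gr k) (Fin.cons ω xv : Fin 5 → QA k) (cons_mem k) adjoin_eq_top
  rw [eq_top_iff]
  intro x _
  have hx : x ∈ ⨆ i, Proj.basicOpen (gr k) ((Fin.cons ω xv : Fin 5 → QA k) i) := by
    rw [h]
    trivial
  obtain ⟨i, hi⟩ := TopologicalSpace.Opens.mem_iSup.1 hx
  rw [TopologicalSpace.Opens.mem_iSup]
  by_contra hcon
  push Not at hcon
  have hv : ∀ v, (xv v : QA k) ∈ x.asHomogeneousIdeal := by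
    intro v
    have := hcon v
    rw [Proj.mem_basicOpen, not_not] at this
    exact this
  revert hi
  refine Fin.cases ?_ (fun j => ?_) i
  · intro hi
    rw [Proj.mem_basicOpen] at hi
    apply hi
    have h2 : (ω : QA k) * ω ∈ x.asHomogeneousIdeal.toIdeal := by
      rw [omega_sq]
      exact add_mem (Ideal.mul_mem_right _ _ (hv 0)) (Ideal.mul_mem_right _ _ (hv 2))
    have hp := ProjectiveSpectrum.isPrime x
    rcases hp.mem_or_mem h2 with h3 | h3 <;> exact h3
  · intro hi
    rw [Proj.mem_basicOpen] at hi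
    exact hi (hv j)

lemma XQ_zero_bijective : Function.Bijective (algebraMap k (gr k 0)) := by
  constructor
  · have : Nontrivial (gr k 0) := by
      refine ⟨0, 1, fun h => ?_⟩
      have := congrArg Subtype.val h
      exact zero_ne_one this
    exact (algebraMap k (gr k 0)).injective
  · exact algebraMap_zero_surjective (gr k) _ (cons_mem k) adjoin_eq_top

instance : Algebra.FiniteType (gr k 0) (QA k) :=
  finiteType_zero (gr k) _ (cons_mem k) adjoin_eq_top

instance XQ_proper : IsProper (projToSpec (gr k)) := projProper (gr k) (XQ_zero_bijective k)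

instance XQ_compact : CompactSpace (XQ k) :=
  QuasiCompact.compactSpace_of_compactSpace (projToSpec (gr k))

lemma XQ_smooth : SmoothOfRelativeDimension 3 (projToSpec (gr k)) := by
  have h := projSmooth (gr k) xv xv_mem (XQ_cover k) (Fin 3) chartEquiv (fun v c => by
    simp [chartEquiv, Phi])
  simpa using h

lemma XQ_ample : (O1 (𝒜 := gr k) xv xv_mem (XQ_cover k)).IsAmple := O1_isAmple _ _ _

section CharTwo

variable [CharP k 2]

omit [CharP k 2] in
lemma exists_pos : ∃ i > 0, ∃ f ∈ gr k i, f ≠ 0 := by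
  refine ⟨1, one_pos, ω, omega_mem, ?_⟩
  intro h
  have := congrArg QuadraticAlgebra.im h
  simp at this

instance XQ_integral : IsIntegral (XQ k) := projIntegral (gr k) (exists_pos k)

lemma XQ_projective : IsProjectiveVariety (projToSpec (gr k)) :=
  ⟨inferInstance, inferInstance, _, XQ_ample k⟩

/-- The map `O(1) → T_X`. -/
def XQmap : TangentMap (projToSpec (gr k)) (O1 (𝒜 := gr k) xv xv_mem (XQ_cover k)) :=
  O1map xv xv_mem (XQ_cover k) dOmega dv_preserves

omit [CharP k 2] in
lemma xv_ne_zero (v : Fin 4) : (xv v : QA k) ≠ 0 := by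
  intro h
  have := congrArg QuadraticAlgebra.re h
  exact MvPolynomial.X_ne_zero (R := k) v this

lemma XQmap_nonzero : (XQmap k).Nonzero := by
  refine ⟨(0 : Fin 4), Proj.basicOpen (gr k) (xv 0), le_rfl, frs (xv_mem 0) omega_mem, ?_⟩
  intro h
  let η := zeroPoint (gr k) (exists_pos k)
  have hη : η ∈ Proj.basicOpen (gr k) (xv 0) := by
    intro h1
    have h2 : (xv 0 : QA k) ∈ (⊥ : HomogeneousIdeal (gr k)).toIdeal := h1
    rw [HomogeneousIdeal.toIdeal_bot] at h2
    exact xv_ne_zero k 0 (by simpa using h2)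
  have h1 := congrArg (fun s : Reg (XQ k) (Proj.basicOpen (gr k) (xv 0)) => (valAt s η hη).val) h
  have e1 : (valAt (((XQmap k).D (0 : Fin 4)).D (Proj.basicOpen (gr k) (xv 0)) le_rfl
      (frs (xv_mem 0) omega_mem)) η hη).val = derLoc (dv 0) _ (valAt (frs (xv_mem 0) omega_mem) η hη).val :=
    val_projVF (dv_preserves 0) _ _ _ _ _ _
  have h2 := e1.symm.trans h1
  rw [val_frs, derLoc_mk] at h2
  have e2 : (valAt (0 : Reg (XQ k) (Proj.basicOpen (gr k) (xv 0))) η hη).val = 0 := val_zero
  rw [e2] at h2
  simp only [dv_apply, dOmega_xv, dOmega_omega, mul_zero, sub_zero, mul_one] at h2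
  have h3 := Localization.mk_self (⟨(xv 0 : QA k), hη⟩ * ⟨(xv 0 : QA k), hη⟩ :
    η.asHomogeneousIdeal.toIdeal.primeCompl)
  have h4 := h3.symm.trans h2
  have : Nontrivial (Localization η.asHomogeneousIdeal.toIdeal.primeCompl) := inferInstance
  exact one_ne_zero h4

end CharTwo

end

end Pool.Agent.W517
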