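import Mathlib
import Pool.Agent.W517.Ev
import Pool.Agent.W517.XQ

/-!
Tangent vectors of the quadric threefold at a point.
-/

open AlgebraicGeometry CategoryTheory HomogeneousLocalization Opposite TopologicalSpace
open Pool.Agent.Helper922.VS MvPolynomial

namespace Pool.Agent.W517

noncomputable section

variable (k : Type) [Field k]

/-- The ring `k ⊕ k²` with `(k²)² = 0`. -/
abbrev R2 : Type := TrivSqZeroExt k (k × k)

instance : IsLocalRing (R2 k) := by
  refine IsLocalRing.of_isUnit_or_isUnit_one_sub_self fun a => ?_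
  rw [TrivSqZeroExt.isUnit_iff_isUnit_fst, TrivSqZeroExt.isUnit_iff_isUnit_fst,
    TrivSqZeroExt.fst_sub, TrivSqZeroExt.fst_one]
  exact IsLocalRing.isUnit_or_isUnit_one_sub_self _

/-- The constants. -/
def inl2 : k →+* R2 k := TrivSqZeroExt.inlHom k (k × k)

variable {k}

/-- The coordinate `τ₀`. -/
def s0 (r : R2 k) : k := r.snd.1
/-- The coordinate `τ₁`. -/
def s1 (r : R2 k) : k := r.snd.2

lemma s0_add (a b : R2 k) : s0 (a + b) = s0 a + s0 b := rfl
lemma s1_add (a b : R2 k) : s1 (a + b) = s1 a + s1 b := rfl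
lemma s0_mul (a b : R2 k) : s0 (a * b) = a.fst * s0 b + b.fst * s0 a := by
  simp [s0]
lemma s1_mul (a b : R2 k) : s1 (a * b) = a.fst * s1 b + b.fst * s1 a := by
  simp [s1]
lemma s0_inl (c : k) : s0 (inl2 k c) = 0 := rfl
lemma s1_inl (c : k) : s1 (inl2 k c) = 0 := rfl
lemma fst_inl (c : k) : (inl2 k c).fst = c := rfl

/-- The first order jets in the directions `y₀`, `y₁` at the origin. -/
def tauR : R3 k →+* R2 k :=
  eval₂Hom (inl2 k) ![TrivSqZeroExt.inr (1, 0), TrivSqZeroExt.inr (0, 1), 0]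

lemma tauR_C (c : k) : tauR (C c) = inl2 k c := by simp [tauR]

lemma tauR_X0 : tauR (X 0 : R3 k) = TrivSqZeroExt.inr (1, 0) := by simp [tauR]
lemma tauR_X1 : tauR (X 1 : R3 k) = TrivSqZeroExt.inr (0, 1) := by simp [tauR]
lemma tauR_X2 : tauR (X 2 : R3 k) = 0 := by simp [tauR]

lemma fst_tauR_X (i : Fin 3) : (tauR (X i : R3 k)).fst = 0 := by
  fin_cases i
  · exact congrArg TrivSqZeroExt.fst tauR_X0
  · exact congrArg TrivSqZeroExt.fst tauR_X1
  · exact congrArg TrivSqZeroExt.fst tauR_X2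

lemma s0_tauR_X (i : Fin 3) : s0 (tauR (X i : R3 k)) = if i = 0 then 1 else 0 := by
  fin_cases i
  · exact congrArg s0 tauR_X0
  · exact congrArg s0 tauR_X1
  · exact congrArg s0 tauR_X2

lemma fst_tauR (p : R3 k) : (tauR p).fst = coeff 0 p := by
  induction p using MvPolynomial.induction_on with
  | C c => rw [tauR_C]; simp [fst_inl]
  | add p q hp hq => rw [map_add, TrivSqZeroExt.fst_add, hp, hq, coeff_add]
  | mul_X p i hp =>
    rw [map_mul, TrivSqZeroExt.fst_mul, fst_tauR_X, mul_zero, coeff_mul_X']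
    simp

lemma s0_tauR (p : R3 k) : s0 (tauR p) = coeff (Finsupp.single 0 1) p := by
  induction p using MvPolynomial.induction_on with
  | C c =>
    rw [tauR_C, s0_inl]
    rw [coeff_C, if_neg]
    intro h
    exact one_ne_zero (Finsupp.single_eq_zero.1 h.symm)
  | add p q hp hq => rw [map_add, s0_add, hp, hq, coeff_add]
  | mul_X p i hp =>
    rw [map_mul, s0_mul, fst_tauR_X, s0_tauR_X, fst_tauR, zero_mul, add_zero, coeff_mul_X']
    by_cases hi : i = 0
    · subst hi
      simp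
    · simp [hi]

variable (k) in
/-- The first order jets at a point of the quadric. -/
def tX : Spec (CommRingCat.of (R2 k)) ⟶ XQ k :=
  Spec.map (CommRingCat.ofHom ((tauR (k := k)).comp (Psi 0))) ≫ Proj.awayι (gr k) (xv 0) (xv_mem 0) one_pos

lemma tX_mem : tX k (cp (R2 k)) ∈ Proj.basicOpen (gr k) (xv 0) := by
  have h : tX k (cp (R2 k)) ∈ (Proj.awayι (gr k) (xv 0) (xv_mem 0) one_pos).opensRange :=
    ⟨_, rfl⟩
  rwa [Proj.opensRange_awayι] at h

variable (k) in
/-- The chart. -/
def sec (v : Fin 4) : R3 k →+* Reg (XQ k) (Proj.basicOpen (gr k) (xv v)) :=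
  (show Away (gr k) (xv v) →+* Reg (XQ k) (Proj.basicOpen (gr k) (xv v)) from
    (Proj.awayToSection (gr k) (xv v)).hom).comp (Phi v)

lemma sec_bijective (v : Fin 4) : Function.Bijective (sec k v) := by
  have h1 : Function.Bijective (Proj.awayToSection (gr k) (xv v)).hom := by
    rw [← Proj.basicOpenIsoAway_hom (gr k) (xv v) (xv_mem v) one_pos]
    exact (Proj.basicOpenIsoAway (gr k) (xv v) (xv_mem v) one_pos).commRingCatIsoToRingEquiv.bijective
  exact h1.comp (Phi_bijective v)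

lemma ev_sec (p : R3 k) : ev (tX k) (Proj.basicOpen (gr k) (xv 0)) tX_mem (sec k 0 p) = tauR p := by
  have h := ev_secOf (𝒜 := gr k) (xv_mem 0) ((tauR (k := k)).comp (Psi 0)) tX_mem (Phi 0 p)
  refine h.trans ?_
  rw [RingHom.comp_apply, Psi_Phi]

lemma tX_base : tX k ≫ projToSpec (gr k) = Spec.map (CommRingCat.ofHom (inl2 k)) := by
  rw [tX, Category.assoc, awayι_projToSpec, ← Spec.map_comp, ← CommRingCat.ofHom_comp]
  congr 2
  ext1 c
  rw [RingHom.comp_apply, RingHom.comp_apply, Psi_cst, tauR_C]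

end

end Pool.Agent.W517
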