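import Mathlib
import Pool.Agent.W517.Tan
import Pool.Agent.W517.Key

/-!
The quadric threefold is not isomorphic to a projective space.
-/

open AlgebraicGeometry CategoryTheory HomogeneousLocalization Opposite TopologicalSpace
open Pool.Agent.Helper922.VS MvPolynomial

namespace Pool.Agent.W517

noncomputable section

section Pull

lemma rs_pull {X Y : Scheme.{0}} (f : Y ⟶ X) {U : X.Opens} {V W : Y.Opens} (h : V ≤ f ⁻¹ᵁ U)
    (hW : W ≤ V) (s : Reg X U) : rs hW (pull f h s) = pull f (hW.trans h) s :=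
  congrArg (fun q => q.hom s) (Scheme.Hom.appLE_map f h (homOfLE hW).op)

lemma pull_rs {X Y : Scheme.{0}} (f : Y ⟶ X) {U U' : X.Opens} {V : Y.Opens} (h : V ≤ f ⁻¹ᵁ U)
    (hU : U ≤ U') (s : Reg X U') :
    pull f h (rs hU s) = pull f (h.trans (fun _ hx => hU hx)) s :=
  congrArg (fun q => q.hom s) (Scheme.Hom.map_appLE f h (homOfLE hU).op)

lemma pull_baseHom {k : Type} [Field k] {X Y : Scheme.{0}} (f : Y ⟶ X)
    (p : X ⟶ Spec (CommRingCat.of k)) {q : Y ⟶ Spec (CommRingCat.of k)} (hq : f ≫ p = q)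
    {U : X.Opens} {V : Y.Opens} (h : V ≤ f ⁻¹ᵁ U) (c : k) :
    pull f h (baseHom p U c) = baseHom q V c := by
  subst hq
  have h1 := Scheme.Hom.appLE_comp_appLE f p ⊤ U V le_top h
  exact congrArg (fun q => q.hom ((Scheme.ΓSpecIso (CommRingCat.of k)).inv.hom c)) h1

lemma pull_bijective {X Y : Scheme.{0}} (f : Y ⟶ X) [IsIso f] (U : X.Opens) :
    Function.Bijective (pull f (le_rfl : f ⁻¹ᵁ U ≤ f ⁻¹ᵁ U)) := by
  have h : IsIso (f.appLE U (f ⁻¹ᵁ U) le_rfl) := by
    rw [Scheme.Hom.appLE_eq_app]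
    infer_instance
  exact (ConcreteCategory.isIso_iff_bijective _).1 h

end Pull

variable (k : Type) [Field k]

lemma sec_C (v : Fin 4) (c : k) : sec k v (C c) = baseHom (projToSpec (gr k)) _ c := by
  refine valAt_ext fun x hx => ?_
  apply val_injective
  rw [valAt_const]
  have h : sec k v (C c) = secOf (gr k) (xv v) (cst (gr k) (xv v) c) := by
    have : Phi v (C c) = cst (gr k) (xv v) c := by simp [Phi]
    rw [← this]
    rfl
  rw [h, val_secOf, val_cst]
  exact IsLocalization.map_eq _ _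

lemma sec_X0 (v : Fin 4) : sec k v (X 0) = frs (xv_mem v) omega_mem := by
  have : Phi (k := k) v (X 0) = frv v QuadraticAlgebra.omega omega_mem := by simp [Phi]
  exact congrArg (secOf (gr k) (xv v)) this

lemma sec_X1 (v : Fin 4) : sec k v (X 1) = frs (xv_mem v) (xv_mem (o1 v)) := by
  have : Phi (k := k) v (X 1) = frv v (xv (o1 v)) (xv_mem _) := by simp [Phi]
  exact congrArg (secOf (gr k) (xv v)) this

lemma sec_X2 (v : Fin 4) : sec k v (X 2) = frs (xv_mem v) (xv_mem (o2 v)) := by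
  have : Phi (k := k) v (X 2) = frv v (xv (o2 v)) (xv_mem _) := by simp [Phi]
  exact congrArg (secOf (gr k) (xv v)) this

lemma sec_FF (v : Fin 4) : sec k v (FF k) = frs (xv_mem v) (xv_mem (par v)) := by
  have : Phi (k := k) v (FF k) = frv v (xv (par v)) (xv_mem _) := by
    rw [frv_par]
    simp [Phi, FF]
  exact congrArg (secOf (gr k) (xv v)) this

lemma frs_mul {a b c : QA k} (ha : a ∈ gr k 1) (hb : b ∈ gr k 1) (hc : c ∈ gr k 1)
    {W : (XQ k).Opens} (h1 : W ≤ Proj.basicOpen (gr k) a) (h2 : W ≤ Proj.basicOpen (gr k) b) :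
    rs h1 (frs ha hc) = rs h1 (frs ha hb) * rs h2 (frs hb hc) := by
  refine valAt_ext fun x hx => ?_
  apply val_injective
  rw [valAt_mul, val_mul, val_rs_frs, val_rs_frs, val_rs_frs]
  exact (mk_mul_mk' _ _ _ _ _).symm

lemma sec_rel (i : Fin 3) {W : (XQ k).Opens} (h0 : W ≤ Proj.basicOpen (gr k) (xv 0))
    (h1 : W ≤ Proj.basicOpen (gr k) (xv 1)) :
    rs h0 (sec k 0 (X i)) = rs h0 (sec k 0 (FF k)) * rs h1 (sec k 1 (X i)) := by
  rw [sec_FF]
  fin_cases i
  · exact (congrArg (rs h0) (sec_X0 k 0)).trans ((frs_mul k (xv_mem 0) (xv_mem 1) omega_mem h0 h1).trans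
      (congrArg (fun s => rs h0 (frs (xv_mem 0) (xv_mem 1)) * rs h1 s) (sec_X0 k 1).symm))
  · exact (congrArg (rs h0) (sec_X1 k 0)).trans ((frs_mul k (xv_mem 0) (xv_mem 1) (xv_mem 2) h0 h1).trans
      (congrArg (fun s => rs h0 (frs (xv_mem 0) (xv_mem 1)) * rs h1 s) (sec_X1 k 1).symm))
  · exact (congrArg (rs h0) (sec_X2 k 0)).trans ((frs_mul k (xv_mem 0) (xv_mem 1) (xv_mem 3) h0 h1).trans
      (congrArg (fun s => rs h0 (frs (xv_mem 0) (xv_mem 1)) * rs h1 s) (sec_X2 k 1).symm))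

section CharTwo

variable [CharP k 2] {k}

lemma mem_zero (v : Fin 4) : (zeroPoint (gr k) (exists_pos k) : ProjectiveSpectrum (gr k)) ∈
    Proj.basicOpen (gr k) (xv v) := by
  intro h1
  have h2 : (xv v : QA k) ∈ (⊥ : HomogeneousIdeal (gr k)).toIdeal := h1
  rw [HomogeneousIdeal.toIdeal_bot] at h2
  exact xv_ne_zero k v (by simpa using h2)

/-- The linear part of a vector field on a scheme isomorphic to the quadric. -/
lemma linear_part {Y : Scheme.{0}} [IsIntegral Y] {q : Y ⟶ Spec (CommRingCat.of k)}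
    (e : XQ k ≅ Y) (he : e.inv ≫ projToSpec (gr k) = q) (D : VField q ⊤) (a1 : R3 k)
    (ha1 : D.D (e.inv ⁻¹ᵁ Proj.basicOpen (gr k) (xv 0)) le_top (pull e.inv le_rfl (sec k 0 (X 1))) =
      pull e.inv le_rfl (sec k 0 a1)) :
    coeff (Finsupp.single 0 1) a1 = 0 := by
  let V : Fin 4 → Y.Opens := fun v => e.inv ⁻¹ᵁ Proj.basicOpen (gr k) (xv v)
  let A : ∀ v : Fin 4, R3 k →+* Reg Y (V v) := fun v => (pull e.inv le_rfl).comp (sec k v)
  have hA : ∀ v, Function.Bijective (A v) := fun v =>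
    (pull_bijective e.inv (Proj.basicOpen (gr k) (xv v))).comp (sec_bijective v)
  let W : Y.Opens := V 0 ⊓ V 1
  have hW : Nonempty W := by
    let η : XQ k := zeroPoint (gr k) (exists_pos k)
    have h1 : e.inv (e.hom η) = η := by simp
    refine ⟨⟨e.hom η, ?_, ?_⟩⟩
    · change e.inv (e.hom η) ∈ Proj.basicOpen (gr k) (xv 0)
      rw [h1]
      exact mem_zero 0
    · change e.inv (e.hom η) ∈ Proj.basicOpen (gr k) (xv 1)
      rw [h1]
      exact mem_zero 1
  let α : R3 k →+* Reg Y W := (res (inf_le_left : W ≤ V 0)).comp (A 0)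
  let β : R3 k →+* Reg Y W := (res (inf_le_right : W ≤ V 1)).comp (A 1)
  have hα : Function.Injective α := by
    have h : Function.Injective (res (inf_le_left : W ≤ V 0)) :=
      map_injective_of_isIntegral Y (homOfLE (inf_le_left : W ≤ V 0))
    exact h.comp (hA 0).1
  refine key_lemma α β hα ?_ ?_ (D.D W le_top) (D.map_add W le_top) (D.leibniz W le_top) ?_ ?_
    (a1 := a1) ?_
  · intro i
    have h0 : W ≤ e.inv ⁻¹ᵁ (Proj.basicOpen (gr k) (xv 0) ⊓ Proj.basicOpen (gr k) (xv 1)) :=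
      fun x hx => hx
    have h1 := congrArg (pull e.inv h0) (sec_rel k i (W := Proj.basicOpen (gr k) (xv 0) ⊓
      Proj.basicOpen (gr k) (xv 1)) inf_le_left inf_le_right)
    rw [map_mul, pull_rs, pull_rs, pull_rs] at h1
    have e1 : ∀ p, α p = pull e.inv
      (show W ≤ e.inv ⁻¹ᵁ Proj.basicOpen (gr k) (xv 0) from inf_le_left) (sec k 0 p) :=
      fun p => rs_pull _ _ _ _
    have e2 : ∀ p, β p = pull e.inv
      (show W ≤ e.inv ⁻¹ᵁ Proj.basicOpen (gr k) (xv 1) from inf_le_right) (sec k 1 p) :=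
      fun p => rs_pull _ _ _ _
    rw [e1, e1, e2]
    exact h1
  · intro c
    have e1 : α (C c) = rs (inf_le_left : W ≤ V 0) (pull e.inv le_rfl (sec k 0 (C c))) := rfl
    have e2 : β (C c) = rs (inf_le_right : W ≤ V 1) (pull e.inv le_rfl (sec k 1 (C c))) := rfl
    rw [e1, e2, rs_pull, rs_pull, sec_C, sec_C, pull_baseHom _ _ he, pull_baseHom _ _ he]
  · intro p
    obtain ⟨b, hb⟩ := (hA 0).2 (D.D (V 0) le_top (A 0 p))
    refine ⟨b, ?_⟩
    have h := D.map_res (V 0) W le_top inf_le_left (A 0 p)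
    rw [← hb] at h
    exact h.symm
  · intro p
    obtain ⟨b, hb⟩ := (hA 1).2 (D.D (V 1) le_top (A 1 p))
    refine ⟨b, ?_⟩
    have h := D.map_res (V 1) W le_top inf_le_right (A 1 p)
    rw [← hb] at h
    exact h.symm
  · have h := D.map_res (V 0) W le_top inf_le_left (A 0 (X 1))
    have h1 : D.D (V 0) le_top (A 0 (X 1)) = A 0 a1 := ha1
    rw [h1] at h
    exact h.symm

end CharTwo

end

end Pool.Agent.W517
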