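import Mathlib
import Pool.Agent.W517.NonIso

/-!
Vector fields on projective space; the quadric threefold is not isomorphic to a projective space.
-/

open AlgebraicGeometry CategoryTheory HomogeneousLocalization Opposite TopologicalSpace
open Pool.Agent.Helper922.VS MvPolynomial

namespace Pool.Agent.W517

noncomputable section

attribute [local instance] MvPolynomial.gradedAlgebra

variable {k : Type} [Field k] {n : ℕ}

/-- The grading of `k[X₀, …, X_n]`. -/
abbrev gP (k : Type) [Field k] (n : ℕ) : ℕ → Submodule k (MvPolynomial (Fin (n + 1)) k) :=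
  homogeneousSubmodule (Fin (n + 1)) k

lemma X_mem (i : Fin (n + 1)) : (X i : MvPolynomial (Fin (n + 1)) k) ∈ gP k n 1 :=
  isHomogeneous_X k i

lemma gP_adjoin : Algebra.adjoin k (Set.range (X : Fin (n + 1) → MvPolynomial (Fin (n + 1)) k)) = ⊤ :=
  adjoin_range_X

instance PSpace_integral : IsIntegral (PSpace k n) :=
  projIntegral (gP k n) ⟨1, one_pos, X 0, X_mem 0, X_ne_zero 0⟩

lemma PSpace_cover : ⨆ i, Proj.basicOpen (gP k n) (X i) = ⊤ :=
  iSup_basicOpen (gP k n) X X_mem gP_adjoin

/-- Induction for functions on the chart `D₊(X_j)`. -/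
lemma reg_induction (j : Fin (n + 1)) (P : Reg (PSpace k n) (Proj.basicOpen (gP k n) (X j)) → Prop)
    (hadd : ∀ s t, P s → P t → P (s + t)) (hmul : ∀ s t, P s → P t → P (s * t))
    (hc : ∀ c, P (baseHom (PSpace.toSpec k n) _ c))
    (hX : ∀ i, P (frs (X_mem j) (X_mem i))) (s : Reg (PSpace k n) (Proj.basicOpen (gP k n) (X j))) :
    P s := by
  have hcst : ∀ c, secOf (gP k n) (X j) (cst (gP k n) (X j) c) =
      baseHom (PSpace.toSpec k n) _ c := by
    intro c
    refine valAt_ext fun x hx => ?_
    apply val_injective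
    rw [valAt_const, val_secOf, val_cst]
    exact IsLocalization.map_eq _ _
  have hone : (1 : Reg (PSpace k n) (Proj.basicOpen (gP k n) (X j))) =
      baseHom (PSpace.toSpec k n) _ 1 := by rw [map_one]
  have hzero : (0 : Reg (PSpace k n) (Proj.basicOpen (gP k n) (X j))) =
      baseHom (PSpace.toSpec k n) _ 0 := by rw [map_zero]
  have hneg : ∀ s, P s → P (-s) := by
    intro s hs
    have : -s = baseHom (PSpace.toSpec k n) _ (-1) * s := by rw [map_neg, map_one]; ring
    rw [this]
    exact hmul _ _ (hc _) hs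
  let T : Subring (Reg (PSpace k n) (Proj.basicOpen (gP k n) (X j))) :=
    { carrier := {s | P s}
      mul_mem' := fun {a b} ha hb => hmul a b ha hb
      one_mem' := by
        change P 1
        rw [hone]
        exact hc 1
      add_mem' := fun {a b} ha hb => hadd a b ha hb
      zero_mem' := by
        change P 0
        rw [hzero]
        exact hc 0
      neg_mem' := fun {a} ha => hneg a ha }
  let S : Away (gP k n) (X j) →+* Reg (PSpace k n) (Proj.basicOpen (gP k n) (X j)) :=
    (Proj.awayToSection (gP k n) (X j)).hom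
  have hS : Function.Surjective S := by
    have h1 : Function.Surjective (Proj.awayToSection (gP k n) (X j)).hom := by
      rw [← Proj.basicOpenIsoAway_hom (gP k n) (X j) (X_mem j) one_pos]
      exact (Proj.basicOpenIsoAway (gP k n) (X j) (X_mem j)
        one_pos).commRingCatIsoToRingEquiv.surjective
    exact h1
  obtain ⟨a, rfl⟩ := hS s
  have h := away_top (gP k n) X X_mem gP_adjoin (X_mem j) (T.comap S) (fun c => by
    change P (secOf (gP k n) (X j) (cst (gP k n) (X j) c))
    rw [hcst]
    exact hc c) (fun i => hX i) a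
  exact h

/-- The vector field `ℓ ∑ tₐ ∂/∂Xₐ` in homogeneous coordinates. -/
def dP (l : MvPolynomial (Fin (n + 1)) k) (t : Fin (n + 1) → k) :
    Derivation k (MvPolynomial (Fin (n + 1)) k) (MvPolynomial (Fin (n + 1)) k) :=
  l • ∑ a, t a • pderiv a

lemma dP_apply (l : MvPolynomial (Fin (n + 1)) k) (t : Fin (n + 1) → k)
    (p : MvPolynomial (Fin (n + 1)) k) : dP l t p = l * ∑ a, t a • pderiv a p := by
  have h : ∀ s : Finset (Fin (n + 1)),
      (∑ a ∈ s, t a • (pderiv a : Derivation k (MvPolynomial (Fin (n + 1)) k) _)) p =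
        ∑ a ∈ s, t a • pderiv a p := by
    classical
    intro s
    induction s using Finset.induction_on with
    | empty => simp
    | insert a s ha ih => rw [Finset.sum_insert ha, Finset.sum_insert ha, Derivation.add_apply, ih,
        Derivation.smul_apply]
  rw [dP, Derivation.smul_apply, h, smul_eq_mul]

lemma dP_X (l : MvPolynomial (Fin (n + 1)) k) (t : Fin (n + 1) → k) (i : Fin (n + 1)) :
    dP l t (X i) = l * C (t i) := by
  rw [dP_apply]
  congr 1
  rw [Finset.sum_eq_single i]
  · rw [pderiv_X_self, smul_eq_C_mul, mul_one]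
  · intro b _ hb
    rw [pderiv_X_of_ne (Ne.symm hb), smul_zero]
  · intro h
    exact absurd (Finset.mem_univ i) h

lemma dP_preserves {l : MvPolynomial (Fin (n + 1)) k} (hl : l ∈ gP k n 1) (t : Fin (n + 1) → k) :
    PreservesDegree (gP k n) (dP l t) := by
  intro m p hp
  rw [dP_apply]
  cases m with
  | zero =>
    obtain ⟨c, rfl⟩ := exists_const (gP k n) X X_mem gP_adjoin p hp
    have : ∀ a : Fin (n + 1), pderiv a (algebraMap k (MvPolynomial (Fin (n + 1)) k) c) = 0 :=
      fun a => Derivation.map_algebraMap _ _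
    simp only [this, smul_zero, Finset.sum_const_zero, mul_zero]
    exact zero_mem _
  | succ m =>
    rw [add_comm m 1]
    refine IsHomogeneous.mul hl ?_
    refine IsHomogeneous.sum _ _ _ fun a _ => ?_
    exact Submodule.smul_mem (gP k n m) _ (IsHomogeneous.pderiv hp)

/-- The chart `D₊(X_j)`. -/
abbrev WW (k : Type) [Field k] (n : ℕ) (j : Fin (n + 1)) : (PSpace k n).Opens :=
  Proj.basicOpen (gP k n) (X j)

/-- The coordinates `X_i / X_j`. -/
def yc (j i : Fin (n + 1)) : Reg (PSpace k n) (WW k n j) := frs (X_mem j) (X_mem i)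

/-- The constants. -/
def kc (U : (PSpace k n).Opens) (c : k) : Reg (PSpace k n) U := baseHom (PSpace.toSpec k n) U c

/-- The linear form `X_a - c X_j`. -/
def ell (a j : Fin (n + 1)) (c : k) : MvPolynomial (Fin (n + 1)) k := X a - C c * X j

lemma ell_mem (a j : Fin (n + 1)) (c : k) : ell a j c ∈ gP k n 1 := by
  refine sub_mem (X_mem a) ?_
  rw [← smul_eq_C_mul]
  exact Submodule.smul_mem _ _ (X_mem j)

/-- The vector field `ℓ ∑ tₐ ∂/∂Xₐ`. -/
def vP (l : MvPolynomial (Fin (n + 1)) k) (hl : l ∈ gP k n 1) (t : Fin (n + 1) → k) :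
    VField (PSpace.toSpec k n) ⊤ :=
  projVF (dP_preserves hl t) ⊤

lemma val_vP (l : MvPolynomial (Fin (n + 1)) k) (hl : l ∈ gP k n 1) (t : Fin (n + 1) → k)
    (V : (PSpace k n).Opens) (h : V ≤ ⊤) (s : Reg (PSpace k n) V)
    (x : ProjectiveSpectrum (gP k n)) (hx : x ∈ V) :
    (valAt ((vP l hl t).D V h s) x hx).val = derLoc (dP l t) _ (valAt s x hx).val := val_derHL _ _ _

lemma loc_identity {M : Submonoid (MvPolynomial (Fin (n + 1)) k)} (i a j : Fin (n + 1)) (c : k)
    (t : Fin (n + 1) → k) (ht : t j = 0) (hj : X j ∈ M) :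
    derLoc (dP (ell a j c) t) M (Localization.mk (X i) ⟨X j, hj⟩) =
      algebraMap (MvPolynomial (Fin (n + 1)) k) (Localization M) (C (t i)) *
        (Localization.mk (X a) ⟨X j, hj⟩ -
          algebraMap (MvPolynomial (Fin (n + 1)) k) (Localization M) (C c)) := by
  rw [derLoc_mk, dP_X, dP_X, ht, map_zero, mul_zero, mul_zero, sub_zero]
  rw [← Localization.mk_one_eq_algebraMap, ← Localization.mk_one_eq_algebraMap,
    Localization.sub_mk, Localization.mk_mul, Localization.mk_eq_mk_iff, Localization.r_iff_exists]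
  refine ⟨1, ?_⟩
  simp only [OneMemClass.coe_one, one_mul, Submonoid.coe_mul, mul_one, ell]
  ring

/-- The action of `ℓ ∑ tₐ ∂/∂Xₐ`, `ℓ = X_a - c X_j`, `t_j = 0`, on the coordinates. -/
lemma dP_coord (j a : Fin (n + 1)) (c : k) (t : Fin (n + 1) → k) (ht : t j = 0)
    (i : Fin (n + 1)) :
    (vP (ell a j c) (ell_mem a j c) t).D (WW k n j) le_top (yc j i) =
      kc (WW k n j) (t i) * (yc j a - kc (WW k n j) c) := by
  refine valAt_ext fun x hx => ?_
  apply val_injective
  have hsub : ∀ (s t : Reg (PSpace k n) (WW k n j)),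
    (valAt (s - t) x hx).val = (valAt s x hx).val - (valAt t x hx).val := fun s t => val_sub _ _
  have e1 : (valAt (yc j i) x hx).val = Localization.mk (X i) ⟨X j, hx⟩ := val_frs _ _ _ _
  have e2 : (valAt (yc j a) x hx).val = Localization.mk (X a) ⟨X j, hx⟩ := val_frs _ _ _ _
  have e3 : (valAt (kc (WW k n j) (t i)) x hx).val = algebraMap _ _ (C (t i)) :=
    valAt_const _ _ _
  have e4 : (valAt (kc (WW k n j) c) x hx).val = algebraMap _ _ (C c) :=
    valAt_const _ _ _
  rw [val_vP, e1, valAt_mul, val_mul, e3, hsub, e2, e4]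
  exact loc_identity i a j c t ht hx

end

end Pool.Agent.W517
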