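import Mathlib
import Pool.Agent.W517.PSide

/-!
The quadric threefold in characteristic two is not isomorphic to a projective space.
-/

open AlgebraicGeometry CategoryTheory HomogeneousLocalization Opposite TopologicalSpace
open Pool.Agent.Helper922.VS MvPolynomial

namespace Pool.Agent.W517

noncomputable section

attribute [local instance] MvPolynomial.gradedAlgebra

variable {k : Type} [Field k]

lemma loc_surj {Y : Scheme.{0}} {U : Y.Opens} (hU : IsAffineOpen U) (f : Reg Y U)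
    (g : Reg Y (nz f)) (h : nz f ≤ U) :
    ∃ (m : ℕ) (a : Reg Y U), g * (rs h f) ^ m = rs h a := by
  let f' : Γ(Y, U) := f
  have := hU.isLocalization_basicOpen f'
  obtain ⟨m, a, ha⟩ := IsLocalization.Away.surj (S := Γ(Y, Y.basicOpen f')) f' g
  refine ⟨m, a, ?_⟩
  exact ha

lemma isUnit_rs_nz {Y : Scheme.{0}} {U : Y.Opens} (f : Reg Y U) (h : nz f ≤ U) :
    IsUnit (rs h f) := by
  exact RingedSpace.isUnit_res_basicOpen _ f

lemma fst_pow' (r : R2 k) (m : ℕ) : (r ^ m).fst = r.fst ^ m := TrivSqZeroExt.fst_pow r m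

theorem not_iso [CharP k 2] (n : ℕ) (e : XQ k ≅ PSpace k n)
    (he : e.hom ≫ PSpace.toSpec k n = projToSpec (gr k)) : False := by
  have he' : e.inv ≫ projToSpec (gr k) = PSpace.toSpec k n := by
    rw [← he, Iso.inv_hom_id_assoc]
  -- the tangent vectors
  let t : Spec (CommRingCat.of (R2 k)) ⟶ PSpace k n := tX k ≫ e.hom
  have ht : t ≫ PSpace.toSpec k n = Spec.map (CommRingCat.ofHom (inl2 k)) := by
    rw [Category.assoc, he, tX_base]
  have hte : t ≫ e.inv = tX k := by
    rw [Category.assoc, Iso.hom_inv_id, Category.comp_id]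
  obtain ⟨j, hj⟩ : ∃ j, t (cp (R2 k)) ∈ WW k n j := by
    have h : t (cp (R2 k)) ∈ (⊤ : (PSpace k n).Opens) := trivial
    rw [← PSpace_cover] at h
    exact TopologicalSpace.Opens.mem_iSup.1 h
  let χ : Reg (PSpace k n) (WW k n j) →+* R2 k := ev t (WW k n j) hj
  have hχc : ∀ c, χ (kc (WW k n j) c) = inl2 k c := fun c => ev_base _ _ _ ht hj c
  -- the functions y₀, y₁
  let V1 : (PSpace k n).Opens := e.inv ⁻¹ᵁ Proj.basicOpen (gr k) (xv 0)
  have hV1 : t (cp (R2 k)) ∈ V1 := by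
    change (t ≫ e.inv) (cp (R2 k)) ∈ Proj.basicOpen (gr k) (xv 0)
    rw [hte]
    exact tX_mem
  let A : R3 k →+* Reg (PSpace k n) V1 := (pull e.inv le_rfl).comp (sec k 0)
  have hA : Function.Bijective A :=
    (pull_bijective e.inv (Proj.basicOpen (gr k) (xv 0))).comp (sec_bijective 0)
  have hevA : ∀ p, ev t V1 hV1 (A p) = tauR p := by
    intro p
    have h1 : (t ≫ e.inv) (cp (R2 k)) ∈ Proj.basicOpen (gr k) (xv 0) := hV1
    have h2 : ev t V1 hV1 (A p) = ev (t ≫ e.inv) (Proj.basicOpen (gr k) (xv 0)) h1 (sec k 0 p) :=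
      ev_pull t e.inv hV1 h1 le_rfl _
    have h3 : ∀ (u : Spec (CommRingCat.of (R2 k)) ⟶ XQ k)
        (hu : u (cp (R2 k)) ∈ Proj.basicOpen (gr k) (xv 0)), u = tX k →
        ev u (Proj.basicOpen (gr k) (xv 0)) hu (sec k 0 p) = tauR p := by
      rintro u hu rfl
      exact ev_sec p
    rw [h2]
    exact h3 _ h1 hte
  -- a small affine neighbourhood
  obtain ⟨f, hf1, hf2⟩ : ∃ f : Reg (PSpace k n) (WW k n j), nz f ≤ V1 ∧
      t (cp (R2 k)) ∈ nz f :=
    (Proj.isAffineOpen_basicOpen (gP k n) (X j) (X_mem j) one_pos).exists_basicOpen_le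
      (⟨t (cp (R2 k)), hV1⟩ : V1) hj
  have hD : nz f ≤ WW k n j := (PSpace k n).basicOpen_le _
  let ε : Reg (PSpace k n) (nz f) →+* R2 k := ev t (nz f) hf2
  have hεχ : ∀ s, ε (rs hD s) = χ s := fun s => ev_rs t hf2 hD s
  have hεV : ∀ s, ε (rs hf1 s) = ev t V1 hV1 s := fun s => ev_rs t hf2 hf1 s
  have hunit : (ε (rs hD f)).fst ≠ 0 := by
    have h := (isUnit_rs_nz f hD).map ε
    rw [TrivSqZeroExt.isUnit_iff_isUnit_fst] at h
    exact h.ne_zero
  have hloc : ∀ s : Reg (PSpace k n) V1, ∃ (m : ℕ) (a : Reg (PSpace k n) (WW k n j)),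
      rs hf1 s * (rs hD f) ^ m = rs hD a := fun s =>
    loc_surj (Proj.isAffineOpen_basicOpen (gP k n) (X j) (X_mem j) one_pos) f (rs hf1 s) hD
  -- a coordinate with nonzero derivative in the direction `τ₀`
  obtain ⟨a, ha⟩ : ∃ a, s0 (χ (yc j a)) ≠ 0 := by
    by_contra hcon
    push Not at hcon
    have hall : ∀ s, s0 (χ s) = 0 := by
      intro s
      induction s using reg_induction j with
      | hadd s t hs ht => rw [map_add, s0_add, hs, ht, add_zero]
      | hmul s t hs ht => rw [map_mul, s0_mul, hs, ht, mul_zero, mul_zero, add_zero]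
      | hc c => exact (congrArg s0 (hχc c)).trans (s0_inl c)
      | hX i => exact hcon i
    obtain ⟨m, b, hb⟩ := hloc (A (X 0))
    have h1 := congrArg ε hb
    rw [map_mul, map_pow, hεχ b, hεV, hevA, tauR_X0] at h1
    have h2 := congrArg s0 h1
    rw [hall b, s0_mul, TrivSqZeroExt.fst_inr, zero_mul, zero_add, fst_pow'] at h2
    have h3 : s0 (TrivSqZeroExt.inr (1, 0) : R2 k) = 1 := rfl
    rw [h3, mul_one] at h2
    exact pow_ne_zero m hunit h2
  -- the vector field
  let c : k := (χ (yc j a)).fst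
  let t1 : Fin (n + 1) → k := fun i => s1 (χ (yc j i))
  have ht1 : t1 j = 0 := by
    have h1 : yc (k := k) j j = 1 := by
      refine valAt_ext fun x hx => ?_
      apply val_injective
      rw [valAt_one, val_one]
      have e1 : (valAt (yc (k := k) j j) x hx).val = Localization.mk (X j) ⟨X j, hx⟩ :=
        val_frs _ _ _ _
      rw [e1]
      exact Localization.mk_self (⟨X j, hx⟩ : x.asHomogeneousIdeal.toIdeal.primeCompl)
    change s1 (χ (yc j j)) = 0
    rw [h1, map_one]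
    rfl
  let D : VField (PSpace.toSpec k n) ⊤ := vP (ell a j c) (ell_mem a j c) t1
  have hDfield : ∀ s, (χ (D.D (WW k n j) le_top s)).fst = 0 ∧
      s0 (χ (D.D (WW k n j) le_top s)) = s0 (χ (yc j a)) * s1 (χ s) := by
    intro s
    induction s using reg_induction j with
    | hadd s t hs ht =>
      rw [D.map_add, map_add, map_add, TrivSqZeroExt.fst_add, s0_add, s1_add, hs.1, ht.1, hs.2,
        ht.2]
      exact ⟨add_zero 0, by ring⟩
    | hmul s t hs ht =>
      rw [D.leibniz, map_add, map_mul, map_mul, map_mul, TrivSqZeroExt.fst_add,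
        TrivSqZeroExt.fst_mul, TrivSqZeroExt.fst_mul, s0_add, s0_mul, s0_mul, s1_mul, hs.1, ht.1,
        hs.2, ht.2]
      exact ⟨by ring, by ring⟩
    | hc c' =>
      rw [D.map_const, map_zero]
      have h1 : χ (baseHom (PSpace.toSpec k n) (WW k n j) c') = inl2 k c' := hχc c'
      rw [h1, s1_inl, mul_zero]
      exact ⟨rfl, rfl⟩
    | hX i =>
      have h1 : D.D (WW k n j) le_top (yc j i) =
        kc (WW k n j) (t1 i) * (yc j a - kc (WW k n j) c) := dP_coord j a c t1 ht1 i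
      have h2 : χ (D.D (WW k n j) le_top (yc j i)) = inl2 k (t1 i) * (χ (yc j a) - inl2 k c) := by
        rw [h1, map_mul, map_sub, hχc, hχc]
      have h3 : (χ (yc j a) - inl2 k c).fst = 0 := by
        rw [TrivSqZeroExt.fst_sub, fst_inl, sub_self]
      have h4 : s0 (χ (yc j a) - inl2 k c) = s0 (χ (yc j a)) := by
        have : s0 (χ (yc j a) - inl2 k c) = s0 (χ (yc j a)) - s0 (inl2 k c) := rfl
        rw [this, s0_inl, sub_zero]
      change (χ (D.D (WW k n j) le_top (yc j i))).fst = 0 ∧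
        s0 (χ (D.D (WW k n j) le_top (yc j i))) = s0 (χ (yc j a)) * s1 (χ (yc j i))
      rw [h2, TrivSqZeroExt.fst_mul, s0_mul, h3, h4, fst_inl, mul_zero]
      refine ⟨rfl, ?_⟩
      change t1 i * s0 (χ (yc j a)) + 0 * _ = s0 (χ (yc j a)) * t1 i
      ring
  -- the computation for `y₁`
  obtain ⟨m, b, hb⟩ := hloc (A (X 1))
  obtain ⟨a1, ha1⟩ := hA.2 (D.D V1 le_top (A (X 1)))
  have hzero : coeff (Finsupp.single 0 1) a1 = 0 := linear_part e he' D a1 ha1.symm
  have hE : s0 (ev t V1 hV1 (D.D V1 le_top (A (X 1)))) = 0 := by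
    rw [← ha1, hevA, s0_tauR, hzero]
  set u : Reg (PSpace k n) (nz f) := (rs hD f) ^ m with hu
  have hufst : (ε u).fst ≠ 0 := by
    rw [hu, map_pow, fst_pow']
    exact pow_ne_zero m hunit
  have h1 : ε (D.D (nz f) le_top (rs hD b)) = χ (D.D (WW k n j) le_top b) := by
    rw [← D.map_res (WW k n j) (nz f) le_top hD b]
    exact hεχ _
  have h2 : D.D (nz f) le_top (rs hD b) = rs hf1 (A (X 1)) * D.D (nz f) le_top u +
      u * D.D (nz f) le_top (rs hf1 (A (X 1))) := by
    rw [← hb, D.leibniz]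
  have h3 : ε (D.D (nz f) le_top (rs hf1 (A (X 1)))) =
      ev t V1 hV1 (D.D V1 le_top (A (X 1))) := by
    rw [← D.map_res V1 (nz f) le_top hf1]
    exact hεV _
  have h4 : ε (rs hf1 (A (X 1))) = TrivSqZeroExt.inr (0, 1) := by
    rw [hεV, hevA, tauR_X1]
  have h5 : χ b = TrivSqZeroExt.inr (0, 1) * ε u := by
    rw [← hεχ, ← hb, map_mul, h4]
  set E := ev t V1 hV1 (D.D V1 le_top (A (X 1))) with hEdef
  have h6 : χ (D.D (WW k n j) le_top b) =
      TrivSqZeroExt.inr (0, 1) * ε (D.D (nz f) le_top u) + ε u * E := by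
    rw [← h1, h2, map_add, map_mul, map_mul, h3, h4]
  obtain ⟨h7, h8⟩ := hDfield b
  have h9 : E.fst = 0 := by
    rw [h6, TrivSqZeroExt.fst_add, TrivSqZeroExt.fst_mul, TrivSqZeroExt.fst_mul,
      TrivSqZeroExt.fst_inr, zero_mul, zero_add] at h7
    exact (mul_eq_zero.1 h7).resolve_left hufst
  have h10 : s0 (TrivSqZeroExt.inr (0, 1) : R2 k) = 0 := rfl
  have h11 : s1 (TrivSqZeroExt.inr (0, 1) : R2 k) = 1 := rfl
  rw [h6, s0_add, s0_mul, s0_mul, h9, hE, h10, h5, s1_mul, h11, TrivSqZeroExt.fst_inr] at h8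
  simp only [zero_mul, mul_zero, zero_add, add_zero, mul_one] at h8
  exact mul_ne_zero ha hufst h8.symm

end

end Pool.Agent.W517
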